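import Pool.Agent.H121.UE.Iface
import Pool.Agent.H295.Z987.Clos

/-! Project UE: localization in an energy window from the summability of the fractional moments (copy of
`locW` in `Pool/Agent/H121/ME/Main.lean`). -/

set_option autoImplicit false
set_option linter.unusedSectionVars false

open scoped BigOperators InnerProductSpace Topology ENNReal
open Filter MeasureTheory

namespace Pool.Agent.H121.UE

open Pool.Agent.Y662.TR hiding wt
open Pool.Agent.TH369.AN (Rz rz_eq rz_uniq rz_norm)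
open Pool.Agent.TH369.MU (SpM ep zk spm_exists)
open Pool.Agent.TH369.MU.PO2 (ep_pos ep_tendsto)
open Pool.Agent.H987.Z
open Pool.Agent.H304.Z987 (mul_summable' tsum_dv' Gr_symm Gr_im Gr_le rz_sub' Gr_sub_z_le)
open Pool.Agent.H121.Z987
open Pool.Agent.H121.ME (S_wienA S_wienB S_simple Gra fs Tw Sw ae_tightW ae_dec closW)

variable {ι : Type} [Countable ι]

/-- **localization in an energy window** -/
theorem locF (hA : S_wienA) (hB : S_wienB) (hSi : S_simple)
    (w : ℝ → ℝ) (hwc : Continuous w) (hw0 : ∀ E, 0 ≤ w E) (hw1 : ∀ E, w E ≤ wt E) (I : Set ℝ)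
    (hI : ∀ E, 0 < w E → E ∈ I) (T : LL ι →L[ℂ] LL ι) (hT : Rs T) (lam : ℝ) (hlam : 0 < lam)
    (s γ D : ℝ) (hs : 0 < s) (hs1 : s < 1) (hγ : 0 ≤ γ) (hD : 0 < D) (r : ι → ℕ)
    (μ : Measure ℝ) [IsProbabilityMeasure μ] (hμ : ∀ᵐ v ∂μ, |v| ≤ 1)
    (hμD : ∀ A : Set ℝ, MeasurableSet A → μ A ≤ ENNReal.ofReal D * volume A)
    (hfsW : ∀ y, ∑' x, ENNReal.ofReal (Real.exp (γ * r x)) * fs I T lam s μ y x ≠ ∞) :
    ∀ᵐ ω ∂(Measure.infinitePi fun _ : ι => μ),
      (∀ (φ : LL ι) (m : Measure ℝ), SpM (HH T lam ω) φ m →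
        ∃ A : Set ℝ, A.Countable ∧ m ({E | 0 < w E} \ A) = 0) ∧
      ∀ (t : ℝ) (u : LL ι), 0 < w t → HH T lam ω u = (t : ℂ) • u →
        Summable fun x => Real.exp (γ * r x) * ‖u x‖ ^ 2 := by
  obtain ⟨C, hC, hgraf⟩ := Pool.Agent.H410.Z987.graf s D lam hs hs1 hD hlam
  have hg : Gra μ lam s C := hgraf μ hμ hμD
  have hU : MeasurableSet {E | 0 < w E} := (isOpen_lt continuous_const hwc).measurableSet
  have hatom : ∀ v : ℝ, μ {v} = 0 := by
    intro v
    have h1 := hμD {v} (measurableSet_singleton v)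
    simpa using h1
  have hfs : ∀ y, ∑' x, fs I T lam s μ y x ≠ ∞ := by
    intro y
    refine ne_top_of_le_ne_top (hfsW y) (ENNReal.tsum_le_tsum fun x => ?_)
    have h1 : (1 : ℝ≥0∞) ≤ ENNReal.ofReal (Real.exp (γ * r x)) := by
      rw [← ENNReal.ofReal_one]
      apply ENNReal.ofReal_le_ofReal
      exact Real.one_le_exp (by positivity)
    calc fs I T lam s μ y x = 1 * fs I T lam s μ y x := (one_mul _).symm
      _ ≤ _ := by gcongr
  have h1 : ∀ᵐ ω ∂(Measure.infinitePi fun _ : ι => μ), ∀ y : ι, ∀ δ : ℝ≥0∞, 0 < δ →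
      ∃ F : Finset ι, liminf (fun k => Tw w (HH T lam ω) y F k) atTop ≤ δ := by
    rw [ae_all_iff]
    intro y
    exact ae_tightW w hwc hw1 I hI T hT lam s C hs μ hμ hg y (hfs y)
  have h2 : ∀ᵐ ω ∂(Measure.infinitePi fun _ : ι => μ), ∀ y : ι,
      ∑' x, ENNReal.ofReal (Real.exp (γ * r x)) *
        liminf (fun k => Sw w (HH T lam ω) x y k) atTop ≠ ∞ := by
    rw [ae_all_iff]
    intro y
    exact ae_dec w hwc hw1 I hI T hT lam s C hs μ hμ hg y _ (hfsW y)
  have h3 := hSi ι T hT lam hlam μ hμ hatom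
  filter_upwards [h1, h2, h3] with ω hω1 hω2 hω3
  constructor
  · intro φ m hm
    refine closW (HH T lam ω) (HH_rs T hT lam ω).sa _ hU (fun y => ?_) φ m hm
    obtain ⟨m', hm', -⟩ := spm_exists (HH T lam ω) (HH_rs T hT lam ω).sa (dv y)
    obtain ⟨A, hA1, hA2⟩ := hA w hwc hw0 hw1 ι (HH T lam ω) (HH_rs T hT lam ω) y (hω1 y) m' hm'
    exact ⟨m', A, hm', hA1, hA2⟩
  · intro t u ht hu
    by_cases hu0 : u = 0
    · rw [hu0]
      simp only [lp.coeFn_zero, Pi.zero_apply, norm_zero]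
      simpa using summable_zero
    · obtain ⟨y, hy⟩ : ∃ y, u y ≠ 0 := by
        by_contra hcon
        push Not at hcon
        exact hu0 (ll_ext hcon)
      have hsim : ∀ v : LL ι, HH T lam ω v = (t : ℂ) • v → ∃ a : ℂ, v = a • u := fun v hv =>
        hω3 t u v hu hv hu0
      obtain ⟨κ, hκ⟩ : ∃ κ : ℝ, κ = Real.pi * w t * (‖u y‖ ^ 2 / ‖u‖ ^ 4) := ⟨_, rfl⟩
      have hκ0 : 0 < κ := by
        rw [hκ]
        have := norm_pos_iff.2 hy
        have := norm_pos_iff.2 hu0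
        have := Real.pi_pos
        positivity
      have h4 : ∑' x, ENNReal.ofReal (κ * (Real.exp (γ * r x) * ‖u x‖ ^ 2)) ≠ ∞ := by
        refine ne_top_of_le_ne_top (hω2 y) (ENNReal.tsum_le_tsum fun x => ?_)
        have h5 := hB w hwc hw0 hw1 ι (HH T lam ω) (HH_rs T hT lam ω) x y t u hu hu0 hsim
        have h6 : κ * (Real.exp (γ * r x) * ‖u x‖ ^ 2) =
            Real.exp (γ * r x) * (Real.pi * w t * (‖u x‖ ^ 2 * ‖u y‖ ^ 2 / ‖u‖ ^ 4)) := by
          rw [hκ]
          ring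
        rw [h6, ENNReal.ofReal_mul (Real.exp_pos _).le]
        gcongr
        exact h5
      have h5 : Summable fun x => κ * (Real.exp (γ * r x) * ‖u x‖ ^ 2) := by
        have h6 := ENNReal.summable_toReal h4
        refine h6.congr fun x => ?_
        rw [ENNReal.toReal_ofReal (by positivity)]
      have h6 := h5.mul_left κ⁻¹
      refine h6.congr fun x => ?_
      rw [← mul_assoc, inv_mul_cancel₀ hκ0.ne', one_mul]

end Pool.Agent.H121.UE
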