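import Pool.Agent.H121.ME.Main
import Pool.Agent.H987.Y.StA

/-! Project UE (universal edge): localization at the edge of the spectrum for an arbitrary single site law
of bounded density, at arbitrary disorder, for a kinetic energy which is a symmetric kernel `t` with
`∑_y |t x y| ≤ M` and bounded sums of `s`-th powers, `s < 1`.

Idea. Above `M + lam b - δ` (`b` = essential supremum of the law) the equation for the Green function is a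
contraction at every site `x` with `lam (b - ω x) ≥ c0`. Follow a chain `x, sh x, …, sh^4 x` of five
neighbouring sites. If one of them is good then there is a contraction by `1 - c c0`. The probability that
all of them are bad is of order `c0^5`; two of these factors are lost in the a priori bound
`E |G(x,u)|^s ≤ C / (1 - s) ~ C / c0`, and `c0^3 / c0 ≪ c0`. The Green functions of all restrictions of the
Hamiltonian to subsets `Ω` are treated simultaneously. -/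

set_option autoImplicit false

open scoped BigOperators InnerProductSpace Topology ENNReal
open Filter MeasureTheory

namespace Pool.Agent.H121.UE

open Pool.Agent.Y662.TR (LL Cf Mw dv hu)
open Pool.Agent.H987.Z (Rs Gr)
open Pool.Agent.H987.Y (Ker Op Lt)
open Pool.Agent.TH369.MU (SpM ep zk)
open Pool.Agent.H121.Z987 (HH)
open Pool.Agent.H121.ME (fs)

open Classical in
/-- the kernel `t` restricted to the set `Ω` -/
noncomputable def rk {ι : Type} (Ω : Set ι) (t : ι → ι → ℝ) (x y : ι) : ℝ :=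
  if x ∈ Ω ∧ y ∈ Ω then t x y else 0

/-- the Green function of the Hamiltonian with the kernel restricted to `Ω` -/
noncomputable def GO {ι : Type} (t : ι → ι → ℝ) (lam : ℝ) (Ω : Set ι) (ω : ι → ℝ) (z : ℂ) (x y : ι) :
    ℂ := Gr (HH (Op (rk Ω t)) lam ω) z x y

open Classical in
/-- **UE-RESA (restricted operators).** `HH_apply`: `HH T lam ω u x = T u x + clp lam (lam ω x) u x`.

Proof. `rk Ω t` is a symmetric kernel with `|rk Ω t x y| ≤ |t x y|`, so `Ker M`; hence `Op (rk Ω t)` has the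
action `Pool.Agent.H168.Y987.op` and is `Rs`. Let `w = Rz (HH (Op (rk Ω t)) lam ω) z (dv y)`
(`Gr T z x y = w x`, by `rfl`), so `HH .. w - z w = dv y` (`rz_eq`). At `x ∉ Ω`: `Op (rk Ω t) w x = 0`, so
`(clp .. - z) w x = dv y x = 0` as `x ≠ y`, and `clp .. - z ≠ 0` as `Im z ≠ 0`: second item. Third item
(`w0 ∉ Ω`): by the second item `w` vanishes outside of `Ω`, so `w` satisfies the equation
`HH .. (update ω w0 v) w - z w = dv y` as well, and `rz_uniq` (`Pool.Agent.TH369.AN`). -/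
def S_resA : Prop :=
  ∀ (ι : Type) (M : ℝ) (t : ι → ι → ℝ), Ker M t → ∀ Ω : Set ι,
    Ker M (rk Ω t) ∧
    (∀ (lam : ℝ) (ω : ι → ℝ) (z : ℂ) (x y : ι), z.im ≠ 0 → x ∉ Ω → y ∈ Ω →
      GO t lam Ω ω z x y = 0) ∧
    ∀ (lam : ℝ) (ω : ι → ℝ) (z : ℂ) (w0 : ι) (v : ℝ) (x y : ι), z.im ≠ 0 → w0 ∉ Ω → y ∈ Ω →
      GO t lam Ω (Function.update ω w0 v) z x y = GO t lam Ω ω z x y

/-- **UE-RESB (resolvent identity).** You may assume `S_resA` as a hypothesis (`h : S_resA`).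

Proof. Let `Ω' = Ω \ B`, `ψ = Rz (HH (Op (rk Ω' t)) lam ω) z (dv y)`; `ψ v = GO t lam Ω' ω z v y` vanishes for
`v ∉ Ω'` (`S_resA`). `φ = (Op (rk Ω t) - Op (rk Ω' t)) ψ`: `φ u = ∑' v, (rk Ω t u v - rk Ω' t u v) ψ v`, the
summand is zero unless `v ∈ Ω'`, and then unless `u ∈ B`; so `φ u = 0` for `u ∉ B` and
`φ u = ∑' v, t u v ψ v` for `u ∈ B`. With `A = HH (Op (rk Ω t)) lam ω`: `A ψ - z ψ = dv y + φ`, so
`ψ = Rz A z (dv y) + Rz A z φ` (`rz_uniq`, linearity), `φ = ∑_{u ∈ B} φ u • dv u`, and at `x ∈ B`, where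
`ψ x = 0`: `Gr A z x y = - ∑_{u ∈ B} φ u * Gr A z x u`. Then take norms, `t ↦ t^s` is subadditive
(`rpow_tsum_le` in `Pool/Agent/H121/Z987/Rs.lean`, `ENNReal.rpow_add_le_add_rpow`; see the proof of `eqn` in
`Pool/Agent/H121/Z987/Mom.lean`, also `enorm_rpow` there). -/
def S_resB : Prop :=
  ∀ (ι : Type) (M : ℝ) (t : ι → ι → ℝ), Ker M t → ∀ (Ω : Set ι) (B : Finset ι), (B : Set ι) ⊆ Ω →
    ∀ (lam : ℝ) (ω : ι → ℝ) (z : ℂ) (s : ℝ) (x y : ι), z.im ≠ 0 → 0 < s → s ≤ 1 → x ∈ B → y ∈ Ω →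
      y ∉ B →
      ‖GO t lam Ω ω z x y‖ₑ ^ s ≤ ∑ u ∈ B, ‖GO t lam Ω ω z x u‖ₑ ^ s *
        ∑' v, ENNReal.ofReal (|t u v| ^ s) * ‖GO t lam (Ω \ (B : Set ι)) ω z v y‖ₑ ^ s

/-- the weight of the first `i` steps of a path -/
noncomputable def pk {ι : Type} (P : ι → ι → ℝ≥0∞) (p : ℕ → ι) (i : ℕ) : ℝ≥0∞ :=
  ∏ j ∈ Finset.range i, P (p j) (p (j + 1))

open Classical in
/-- the weights of the endpoints -/
noncomputable def Wb {ι : Type} (P : ι → ι → ℝ≥0∞) (κ : ℝ≥0∞) (p : ℕ → ι) (n : ℕ) (v : ι) : ℝ≥0∞ :=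
  ∑ i ∈ Finset.range n, pk P p i * (if v = p (i + 1) then 0 else P (p i) v) +
    pk P p n * κ * P (p n) v

/-- **UE-CHAIN.** Proof. For `j ≤ n` let
`R j κ = ∑_{j ≤ i < n} (∏_{j ≤ l < i} P (p l) (p (l+1))) (c (p i) + ∑'_{u ≠ p (i+1)} P (p i) u * g u) +
(∏_{j ≤ l < n} P (p l) (p (l+1))) κ (c (p n) + ∑' u, P (p n) u * g u)`. Downward induction on `j` (better:
induction on `n` for all paths, splitting off the first step): `g (p j) ≤ R j 1`, and `g (p j) ≤ R j κ` if the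
second hypothesis holds for some `i` with `j ≤ i ≤ n`. Step: with `A = c (p j) + ∑'_{u ≠ p (j+1)} ..` and
`P_j = P (p j) (p (j+1))`, `c (p j) + ∑' u, P (p j) u * g u = A + P_j g (p (j+1))`; if `j` itself is good:
`g (p j) ≤ κ (A + P_j R (j+1) 1) ≤ A + P_j R (j+1) κ` as `κ R 1 ≤ R κ`; otherwise
`g (p j) ≤ A + P_j g (p (j+1)) ≤ A + P_j R (j+1) κ`. The constant term of `c (p n)` is `κ pk n c ≤ pk n c`. -/
def S_chain : Prop :=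
  ∀ (ι : Type) (P : ι → ι → ℝ≥0∞) (κ : ℝ≥0∞) (p : ℕ → ι) (n : ℕ) (g c : ι → ℝ≥0∞), κ ≤ 1 →
    (∀ i ≤ n, g (p i) ≤ c (p i) + ∑' u, P (p i) u * g u) →
    (∃ i ≤ n, g (p i) ≤ κ * (c (p i) + ∑' u, P (p i) u * g u)) →
    g (p 0) ≤ ∑ i ∈ Finset.range (n + 1), pk P p i * c (p i) + ∑' v, Wb P κ p n v * g v

/-- **UE-ROWB (row sums of the weights).** Proof. `S m = ∑' v, ∑_{i < m} π_i P'(i, v) + π_m`,
`π_i = pk P p i`, `P' (i, v) = if v = p (i+1) then 0 else P (p i) v`. `S (m+1) ≤ S m + η π_m` as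
`∑' v, P' (m, v) + P (p m) (p (m+1)) = ∑' v, P (p m) v ≤ 1 + η`. And
`∑' v, Wb v + π_n (1 - κ) ≤ (∑' v, ∑_{i < n} π_i P'(i,v)) + π_n κ (1 + η) + π_n (1 - κ) ≤ S n + η π_n`
(`κ + (1 - κ) = 1` in `ℝ≥0∞` as `κ ≤ 1`). So the left side is at most `1 + η ∑_{i ≤ n} π_i`, `π_i ≤ 2^i`,
and `a^n ≤ π_n`. -/
def S_rowb : Prop :=
  ∀ (ι : Type) (P : ι → ι → ℝ≥0∞) (κ : ℝ≥0∞) (p : ℕ → ι) (n : ℕ) (η a : ℝ≥0∞), κ ≤ 1 → η ≤ 1 →
    (∀ i ≤ n, ∑' u, P (p i) u ≤ 1 + η) → (∀ i < n, a ≤ P (p i) (p (i + 1))) →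
    ∑' v, Wb P κ p n v + a ^ n * (1 - κ) ≤ 1 + 2 ^ (n + 1) * η

/-- **UE-ITR (the iteration).** `ρ` is a weight.

Proof. For a finite set `Y` let `H x = ∑_{y ∈ Y} F x y * ρ y`, which is bounded by
`K = C * ∑_{y ∈ Y} ρ y < ∞`. `H x ≤ s0 ρ x + ∑' v, W x v * H v` (multiply the hypothesis by `ρ y`, sum,
`∑_{y ∈ Y} S x y ρ y ≤ ∑' y, ..`). Let `a = ⨆ x, H x / ρ x ≤ K` (`1 ≤ ρ x`, `ρ x < ∞`), then `H v ≤ a ρ v` and
`H x ≤ s0 ρ x + a ∑' v, W x v ρ v ≤ (s0 + a r) ρ x`, so `a ≤ s0 + a r`, `a < ∞`, hence `a ≤ s0 * (1 - r)⁻¹`.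
Finally take the supremum over `Y` (`ENNReal.tsum_eq_iSup_sum`). -/
def S_itr : Prop :=
  ∀ (ι : Type) (F S W : ι → ι → ℝ≥0∞) (ρ : ι → ℝ≥0∞) (C s0 r : ℝ≥0∞), C ≠ ∞ → s0 ≠ ∞ → r < 1 →
    (∀ x, 1 ≤ ρ x) → (∀ x, ρ x ≠ ∞) → (∀ x y, F x y ≤ C) → (∀ x, ∑' y, S x y * ρ y ≤ s0 * ρ x) →
    (∀ x, ∑' v, W x v * ρ v ≤ r * ρ x) → (∀ x y, F x y ≤ S x y + ∑' v, W x v * F v y) →
    ∀ x, ∑' y, F x y * ρ y ≤ s0 * (1 - r)⁻¹ * ρ x

/-- **UE-APRA (fractional moments of a 2x2 resolvent).**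

Proof. `ℓ = lam`. (0) For `β ∈ ℂ`: `∫ ‖ℓ v - β‖^{-s} dμ ≤ ℓ^{-s} ∫ |v - Re β/ℓ|^{-s} dμ ≤
ℓ^{-s} (1 + D ∫_{|v - c| ≤ 1} |v - c|^{-s} dv) = ℓ^{-s} (1 + 2 D/(1-s)) ≤ C1/(1-s)` with
`C1 = max 1 ℓ⁻¹ * (1 + 2 D)` (see `Pool/Agent/H122/Z987/DecCore.lean` and `Pool/Agent/H354/ME` for the same
integral). (1) Let `A = ℓ v + a`, `B = ℓ w + b` and `q = ‖n‖ / ‖A B - n²‖`; `n ≠ 0`.
If `‖B‖ ≥ ‖n‖/2` then `q = ‖n/B‖ / ‖A - n²/B‖ ≤ 2 ‖ℓ v - (n²/B - a)‖⁻¹`, and `n²/B - a` does not depend on `v`: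
the integral over `v` is at most `2^s C1/(1-s)`. If `‖A‖ ≥ ‖n‖/2` the same with the roles exchanged. If both
are `< ‖n‖/2` then `‖A B - n²‖ ≥ 3‖n‖²/4`, `q ≤ 4/(3‖n‖)`, and
`μ {v : ‖ℓ v + a‖ < ‖n‖/2} ≤ min (1, D ‖n‖/ℓ) ≤ (D ‖n‖/ℓ)^s`, so this part is at most
`(4/3)^s (D/ℓ)^s`. So `q^s ≤ ` sum of three terms with indicator functions; `C = 4 C1 + (4 D/ℓ + 1)`, say. -/
def S_aprA : Prop :=
  ∀ D lam : ℝ, 0 < D → 0 < lam → ∃ C : ℝ, 0 < C ∧ ∀ s : ℝ, 1 / 2 ≤ s → s < 1 →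
    ∀ (μ : Measure ℝ) [IsProbabilityMeasure μ],
      (∀ A : Set ℝ, MeasurableSet A → μ A ≤ ENNReal.ofReal D * volume A) →
      (∀ β : ℂ, ∫⁻ v : ℝ, ENNReal.ofReal (‖((lam * v : ℝ) : ℂ) - β‖⁻¹ ^ s) ∂μ ≤
        ENNReal.ofReal (C / (1 - s))) ∧
      ∀ a b n : ℂ, ∫⁻ v : ℝ, ∫⁻ w : ℝ, ENNReal.ofReal
        ((‖n‖ / ‖(((lam * v : ℝ) : ℂ) + a) * (((lam * w : ℝ) : ℂ) + b) - n ^ 2‖) ^ s) ∂μ ∂μ ≤
        ENNReal.ofReal (C / (1 - s))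

open Classical in
/-- the a priori bound of the fractional moments -/
def Apr (μ : Measure ℝ) (lam s C : ℝ) : Prop :=
  ∀ (ι : Type) (T : LL ι →L[ℂ] LL ι), Rs T → ∀ (ω : ι → ℝ) (z : ℂ), 0 < z.im →
    (∀ x, ∫⁻ v, ‖Gr (HH T lam (Function.update ω x v)) z x x‖ₑ ^ s ∂μ ≤ ENNReal.ofReal C) ∧
    ∀ x u, x ≠ u → ∫⁻ v, ∫⁻ w,
      ‖Gr (HH T lam (Function.update (Function.update ω x v) u w)) z x u‖ₑ ^ s ∂μ ∂μ ≤
      ENNReal.ofReal C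

/-- **UE-APRB (the a priori bound).** You may assume `S_aprA` as a hypothesis (`h : S_aprA`).

Proof. Let `ω0` be `ω` with the values at `x` and `u` set to zero, `α = G(x,x)`, `γ = G(x,u)`, `β = G(u,u)` its
Green functions at `z`. `site` (`Pool/Agent/H121/Z987/Mom.lean`; `update` commutes for `x ≠ u`):
`G^v(x,u) = γ/(1 + ℓ v α)`, and by `rank_one` (`Op.lean`) or `site` and `Gr_symm`,
`G^v(u,u) = β - ℓ v γ²/(1 + ℓ v α)`; once more: `G^{v,w}(x,u) = G^v(x,u)/(1 + ℓ w G^v(u,u)) =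
γ / ((1 + ℓ v α)(1 + ℓ w β) - ℓ² v w γ²)`. With `Δ = α β - γ²`, `a = β/Δ`, `b = α/Δ`, `n = γ/Δ`:
`a b - n² = 1/Δ` and the last quotient is `n / ((ℓ v + a)(ℓ w + b) - n²)`. `Δ ≠ 0`: otherwise the vector
`φ = β • dv x - γ • dv u` satisfies `⟪dv x, R φ⟫ = 0 = ⟪dv u, R φ⟫` so `Im ⟪φ, R φ⟫ = 0`, but
`Im ⟪φ, R φ⟫ = Im z ‖R φ‖² > 0` for `φ ≠ 0` (`β ≠ 0` as `Im β > 0`, `Gr_im_pos`). (If `Δ = 0` is awkward to
exclude: the second quotient with `Δ → ` is not needed if one proves `Δ ≠ 0` by the formula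
`0 ≠ 1 + ℓ w G^v(u,u)` for no choice; use the vector argument.) The case `x = u`: `G^v(x,x) = α/(1 + ℓ v α)
= 1/(ℓ v + 1/α)`. -/
def S_aprB : Prop :=
  ∀ D lam : ℝ, 0 < D → 0 < lam → ∃ C : ℝ, 0 < C ∧ ∀ s : ℝ, 1 / 2 ≤ s → s < 1 →
    ∀ (μ : Measure ℝ) [IsProbabilityMeasure μ], (∀ᵐ v ∂μ, |v| ≤ 1) →
      (∀ A : Set ℝ, MeasurableSet A → μ A ≤ ENNReal.ofReal D * volume A) → Apr μ lam s (C / (1 - s))

open Classical in
/-- **UE-BADE (the bad event).** `1_A(ω w)` for all `w ∈ B` is the bad event.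

Proof. `lint_resample` (`Pool/Agent/H121/Z987/Rs.lean`) at `x` and (if `u ≠ x`) at `u`: the factors
`1_A (ω x)`, `1_A (ω u)` are at most one, the other factors do not change, and the inner integral of
`‖Gr ..‖ₑ^s` is at most `ENNReal.ofReal C` by `Apr`. There remains
`∫ ∏_{w ∈ B \ {x,u}} 1_A (ω w) * g ω = (μ A)^{|B \ {x,u}|} ∫ g` (resampling again, induction on the finite set),
and `(μ A)^{|B \ {x,u}|} ≤ (μ A)^{|B| - 2}` as `μ A ≤ 1`. -/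
def S_badE : Prop :=
  ∀ (μ : Measure ℝ) [IsProbabilityMeasure μ] (lam s C : ℝ), 0 < s → Apr μ lam s C →
    ∀ (ι : Type) [Countable ι] (T : LL ι →L[ℂ] LL ι), Rs T → ∀ (z : ℂ), 0 < z.im →
    ∀ (B : Finset ι) (x u : ι) (A : Set ℝ) (g : (ι → ℝ) → ℝ≥0∞), x ∈ B → u ∈ B → MeasurableSet A →
      Measurable g → (∀ ω, ∀ w ∈ B, ∀ v : ℝ, g (Function.update ω w v) = g ω) →
      ∫⁻ ω, (∏ w ∈ B, A.indicator (fun _ => (1 : ℝ≥0∞)) (ω w)) * ‖Gr (HH T lam ω) z x u‖ₑ ^ s * g ω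
        ∂(Measure.infinitePi fun _ : ι => μ) ≤
      ENNReal.ofReal C * μ A ^ (B.card - 2) * ∫⁻ ω, g ω ∂(Measure.infinitePi fun _ : ι => μ)

/-- **UE-PAR (the parameters).** Here `s = 1 - h`.

Proof. `h = δ = θ c` with `c = c0` small. Constants `C_i` depend on `M, M', C, D, lam` only.
`M^{-s} ≤ (M - δ)^{-s} ≤ M^h / (M - δ)` (as `(M - δ)^{h} ≤ M^h`), so for `h, δ ≤ 1/2`, `M ≥ 1`:
`(M + 2 h M') (M - δ)^{-s} - 1 ≤ C_1 (h + δ) = 2 C_1 θ c` (`M^h = exp (h log M) ≤ 1 + 2 h log M` if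
`h log M ≤ 1`). `κ = ((M - δ)/(M - δ + c))^s ≤ (1 - c/(M - δ + c))^(1/2) ≤ 1 - c/(2 (M - δ + c)) ≤ 1 - c/(4 M)`
for `c ≤ M`. So `32 η ≤ 64 C_1 θ c`, the right side is at least `M^{-4} c / (4 M)`, and
`C / h * (D c / lam)^3 * (5 (M + 2 h M')) ≤ C_2 c^2 / θ`. Choose `θ` with `64 C_1 θ ≤ M^{-5}/16`, and then `c`
small. -/
def S_par : Prop :=
  ∀ M M' C D lam : ℝ, 1 ≤ M → 0 ≤ M' → 0 < C → 0 < D → 0 < lam →
    ∃ s δ c η : ℝ, 1 / 2 ≤ s ∧ s < 1 ∧ 0 < δ ∧ δ ≤ 1 / 2 ∧ 0 < c ∧ 0 ≤ η ∧ η ≤ 1 ∧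
      (M + 2 * (1 - s) * M') * (M - δ) ^ (-s) ≤ 1 + η ∧
      32 * η + C / (1 - s) * (D * c / lam) ^ 3 * (5 * (M + 2 * (1 - s) * M')) <
        ((M - δ) ^ (-s)) ^ 4 * (1 - ((M - δ) / (M - δ + c)) ^ s)

/-- **UE-FSUM (the fractional moments are summable).** The result of the project (proof by helper121 from
the others). -/
def S_fsum : Prop :=
  ∀ M M' D lam b : ℝ, 1 ≤ M → 0 ≤ M' → 0 < D → 0 < lam →
    ∃ s e γ : ℝ, 0 < s ∧ s < 1 ∧ e < M + lam * b ∧ 0 < γ ∧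
    ∀ (ι : Type) [Countable ι] (t : ι → ι → ℝ), Ker M t →
      (∀ s : ℝ, 1 / 2 ≤ s → s < 1 → ∀ x, (Summable fun y => |t x y| ^ s) ∧
        ∑' y, |t x y| ^ s ≤ M + 2 * (1 - s) * M') →
      ∀ (sh : ι → ι), (∀ x, 1 ≤ |t x (sh x)|) →
      (∀ x (i j : ℕ), i < j → j ≤ 4 → sh^[i] x ≠ sh^[j] x) →
      ∀ (r : ι → ℕ), (∀ x y, t x y ≠ 0 → r y ≤ r x + 1) →
      ∀ (μ : Measure ℝ) [IsProbabilityMeasure μ], (∀ᵐ v ∂μ, |v| ≤ 1) →
        (∀ A : Set ℝ, MeasurableSet A → μ A ≤ ENNReal.ofReal D * volume A) → μ (Set.Ioi b) = 0 →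
        ∀ y, ∑' x, ENNReal.ofReal (Real.exp (γ * r x)) * fs (Set.Ioi e) (Op t) lam s μ y x ≠ ∞

/-- **UE-TOPA (a spectral lemma).** This is `S_topA` of `Pool/Agent/H121/ME/Iface.lean` (proved by helper962:
`Pool.Agent.H962.ME.topA`) without the condition `0 ≤ e0`.

Proof. Apply it to `T + c` with `c ≥ |e0|` and `e0 + c ≥ 0`: `SpM (T + c) φ (m.map (· + c))` for the
spectral measure `m` of `T` (change of variables in `SpM`, `Rz (T + c) z = Rz T (z - c)` by `rz_uniq`). Or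
adapt the proof of `topA`. -/
def S_topA' : Prop :=
  ∀ (ι : Type) [Countable ι] (T : LL ι →L[ℂ] LL ι), IsSelfAdjoint T → ∀ (e0 : ℝ) (φ : LL ι),
    e0 * ‖φ‖ ^ 2 < (⟪φ, T φ⟫_ℂ).re →
    ∃ y : ι, ∀ m : Measure ℝ, SpM T (dv y) m → m (Set.Ioi e0) ≠ 0

/-- **UE-TOPY (the numerical range of `Op k + lam ω` reaches `κ + lam b`).** This is `S_topY` of
`Pool/Agent/H121/MY/Iface.lean` (proved by helper548: `Pool.Agent.H548.MY.topY`, file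
`Pool/Agent/H548/MY/TopY.lean`) with the upper end `b` of the support in place of `1`. Copy the proof. (Or
deduce it: the law of `v - b + 1`... has support in `[-1,1]` if `-1 ≤ b`, and
`HH T lam ω = HH T lam (ω - b + 1) + lam (b - 1)` if nothing is clipped.) -/
def S_topY' : Prop :=
  ∀ (d : ℕ) (k : Lt d → Lt d → ℝ) (h κ : ℝ), 1 ≤ d → Ker h k → (∀ x, ∑' y, k x y = κ) →
    (∀ δ : ℝ, 0 < δ → ∃ (R : ℕ) (B : Lt d → Lt d → ℝ),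
      (∀ x y, B x y ≠ 0 → ∀ i, |x i - y i| ≤ (R : ℤ)) ∧ Ker δ fun x y => k x y - B x y) →
    ∀ (μ : Measure ℝ) [IsProbabilityMeasure μ], (∀ᵐ v ∂μ, |v| ≤ 1) → ∀ b : ℝ,
    (∀ δ : ℝ, 0 < δ → 0 < μ (Set.Ioi (b - δ))) → ∀ lam : ℝ, 0 < lam →
    ∀ e0 : ℝ, e0 < κ + lam * b →
    ∀ᵐ ω ∂(Measure.infinitePi fun _ : Lt d => μ), ∃ u : LL (Lt d),
      e0 * ‖u‖ ^ 2 < (⟪u, HH (Op k) lam ω u⟫_ℂ).re

/-- **UE-TOPZ (the same for the layers).** This is `S_topB` of `Pool/Agent/H121/ME/Iface.lean` (proved by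
helper410: `Pool.Agent.H410.ME.topB`, file `Pool/Agent/H410/ME/TopB.lean`) with the upper end `b` of the
support in place of `1`. Copy the proof. -/
def S_topZ' : Prop :=
  ∀ (d : ℕ) (F : Type) [Group F] [Countable F] (φ : Multiplicative (Fin d → ℤ) →* MulAut F) (c : F → ℝ)
    (K : LL ((Fin d → ℤ) × F) →L[ℂ] LL ((Fin d → ℤ) × F)), 1 ≤ d → (∀ q, 0 ≤ c q) → Summable c →
    (∀ S : Finset F, ((Subgroup.closure (S : Set F) : Subgroup F) : Set F).Finite) →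
    (∀ q : F, (Set.range fun x => φ x q).Finite) →
    (∀ (u : LL ((Fin d → ℤ) × F)) (x : Fin d → ℤ) (f : F),
      K u (x, f) = -∑ i : Fin d, ((u (x + Pi.single i 1, f) - u (x, f)) +
          (u (x - Pi.single i 1, f) - u (x, f))) +
        ∑' q : F, ((c q : ℝ) : ℂ) * u (x, f * φ (Multiplicative.ofAdd x) q)) →
    ∀ (μ : Measure ℝ) [IsProbabilityMeasure μ], (∀ᵐ v ∂μ, |v| ≤ 1) → ∀ b : ℝ,
    (∀ δ : ℝ, 0 < δ → 0 < μ (Set.Ioi (b - δ))) → ∀ lam : ℝ, 0 < lam →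
    ∀ e0 : ℝ, e0 < 4 * d + ∑' q, c q + lam * b →
    ∀ᵐ ω ∂(Measure.infinitePi fun _ : (Fin d → ℤ) × F => μ), ∃ u : LL ((Fin d → ℤ) × F),
      e0 * ‖u‖ ^ 2 < (⟪u, HH K lam ω u⟫_ℂ).re

end Pool.Agent.H121.UE
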