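import Pool.Agent.H121.UE.FsumB
import Pool.Agent.H121.UE.LocF
import Pool.Agent.H121.MY.Main
import Pool.Agent.H962.UE.ResA
import Pool.Agent.H588.UE.ResB
import Pool.Agent.H181.UE.Chain
import Pool.Agent.H328.UE.Itr
import Pool.Agent.H946.UE.AprA
import Pool.Agent.H356.UE.AprB
import Pool.Agent.H356.UE.BadE
import Pool.Agent.H919.UE.Par
import Pool.Agent.H722.UE.TopA
import Pool.Agent.H34.UE.TopY

/-! Project UE: localization near the edge of the spectrum on the lattice, for all laws of bounded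
density. -/

set_option autoImplicit false
set_option linter.unusedSectionVars false

open scoped BigOperators InnerProductSpace Topology ENNReal
open Filter MeasureTheory

namespace Pool.Agent.H121.UE

open Pool.Agent.Y662.TR (LL Cf Mw dv hu lmk ll_ext ll_summable clp_eq Mw_apply dv_apply)
open Pool.Agent.TH369.AN (Rz)
open Pool.Agent.TH369.MU (SpM ep zk spm_exists)
open Pool.Agent.H987.Z (Rs SqS IsSp sp_of of_sp)
open Pool.Agent.H987.Y
open Pool.Agent.H121.Z987 (wt HH HH_apply HH_rs)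
open Pool.Agent.H121.ME (fs atom_eig we we_cont we_nonneg we_le we_pos)
open Pool.Agent.H121.MY

/-- the result on the fractional moments -/
theorem fsumP (M M' D lam : ℝ) (hM : 1 ≤ M) (hM' : 0 ≤ M') (hD : 0 < D)
    (hlam : 0 < lam) : ∃ s δ γ : ℝ, 0 < s ∧ s < 1 ∧ 0 < δ ∧ δ ≤ 1 / 2 ∧ 0 < γ ∧
    ∀ (ι : Type) [Countable ι] (t : ι → ι → ℝ), Ker M t →
      (∀ s : ℝ, 1 / 2 ≤ s → s < 1 → ∀ x, (Summable fun y => |t x y| ^ s) ∧
        ∑' y, |t x y| ^ s ≤ M + 2 * (1 - s) * M') →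
      ∀ (sh : ι → ι), (∀ x, 1 ≤ |t x (sh x)|) →
      (∀ x (i j : ℕ), i < j → j ≤ 4 → sh^[i] x ≠ sh^[j] x) →
      ∀ (r : ι → ℕ), (∀ x y, t x y ≠ 0 → r y ≤ r x + 1) →
      ∀ (μ : Measure ℝ) [IsProbabilityMeasure μ], (∀ᵐ v ∂μ, |v| ≤ 1) →
        (∀ A : Set ℝ, MeasurableSet A → μ A ≤ ENNReal.ofReal D * volume A) →
        ∀ b : ℝ, μ (Set.Ioi b) = 0 → ∀ y,
        ∑' x, ENNReal.ofReal (Real.exp (γ * r x)) *
          fs (Set.Ioi (M + lam * b - δ)) (Op t) lam s μ y x ≠ ∞ :=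
  fsum Pool.Agent.H962.UE.resA (Pool.Agent.H588.UE.resB Pool.Agent.H962.UE.resA)
    Pool.Agent.H356.UE.badE Pool.Agent.H181.UE.chain Pool.Agent.H79.UE.rowb Pool.Agent.H328.UE.itr
    (Pool.Agent.H356.UE.aprB Pool.Agent.H946.UE.aprA) Pool.Agent.H919.UE.par M M' D lam hM hM' hD hlam

/-- **localization in a window at the upper edge**, for a general kernel -/
theorem locU (M M' D lam : ℝ) (hM : 1 ≤ M) (hM' : 0 ≤ M') (hD : 0 < D) (hlam : 0 < lam) :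
    ∃ δ γ : ℝ, 0 < δ ∧ δ ≤ 1 / 2 ∧ 0 < γ ∧
    ∀ (ι : Type) [Countable ι] (t : ι → ι → ℝ), Ker M t →
      (∀ s : ℝ, 1 / 2 ≤ s → s < 1 → ∀ x, (Summable fun y => |t x y| ^ s) ∧
        ∑' y, |t x y| ^ s ≤ M + 2 * (1 - s) * M') →
      ∀ (sh : ι → ι), (∀ x, 1 ≤ |t x (sh x)|) →
      (∀ x (i j : ℕ), i < j → j ≤ 4 → sh^[i] x ≠ sh^[j] x) →
      ∀ (r : ι → ℕ), (∀ x y, t x y ≠ 0 → r y ≤ r x + 1) →
      ∀ (μ : Measure ℝ) [IsProbabilityMeasure μ], (∀ᵐ v ∂μ, |v| ≤ 1) →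
        (∀ A : Set ℝ, MeasurableSet A → μ A ≤ ENNReal.ofReal D * volume A) →
        ∀ b : ℝ, μ (Set.Ioi b) = 0 →
        ∀ᵐ ω ∂(Measure.infinitePi fun _ : ι => μ),
          (∀ (φ : LL ι) (m : Measure ℝ), SpM (HH (Op t) lam ω) φ m →
            ∃ A : Set ℝ, A.Countable ∧ m (Set.Ioi (M + lam * b - δ) \ A) = 0) ∧
          (∀ (v : ℝ) (u : LL ι), M + lam * b - δ < v → HH (Op t) lam ω u = (v : ℂ) • u →
            Summable fun x => Real.exp (γ * r x) * ‖u x‖ ^ 2) ∧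
          ∀ (e1 : ℝ) (w : LL ι), M + lam * b - δ ≤ e1 →
            e1 * ‖w‖ ^ 2 < (⟪w, HH (Op t) lam ω w⟫_ℂ).re →
            ∃ (v : ℝ) (u : LL ι), e1 < v ∧ u ≠ 0 ∧ HH (Op t) lam ω u = (v : ℂ) • u := by
  obtain ⟨s, δ, γ, hs0, hs1, hδ, hδ1, hγ, h⟩ := fsumP M M' D lam hM hM' hD hlam
  refine ⟨δ, γ, hδ, hδ1, hγ, ?_⟩
  intro ι hcount t ht hts sh hsh1 hsh r hr μ hμP hμ hμD b hμb
  have hfs := h ι t ht hts sh hsh1 hsh r hr μ hμ hμD b hμb
  obtain ⟨e, he⟩ : ∃ e, e = M + lam * b - δ := ⟨_, rfl⟩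
  rw [← he] at hfs ⊢
  have hK : Rs (Op t) := (Pool.Agent.H168.Y987.op _ _ _ ht).2.2.1
  have hloc := locF Pool.Agent.H253.ME.wienA Pool.Agent.H122.ME.wienB Pool.Agent.H962.ME.simple
    (we e) (we_cont e) (we_nonneg e) (we_le e) (Set.Ioi e) (fun E hE => (we_pos e E).1 hE)
    (Op t) hK lam hlam s γ D hs0 hs1 hγ.le hD r μ hμ hμD hfs
  have hset : {E | 0 < we e E} = Set.Ioi e := by
    ext E
    exact we_pos e E
  rw [hset] at hloc
  filter_upwards [hloc] with ω hω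
  obtain ⟨h1, h2⟩ := hω
  refine ⟨h1, fun v u hv hu => h2 v u ((we_pos e v).2 hv) hu, fun e1 w he1 hw => ?_⟩
  obtain ⟨y, hy⟩ := Pool.Agent.H722.UE.topA' _ (HH (Op t) lam ω) (HH_rs _ hK lam ω).sa e1 w hw
  obtain ⟨m', hm', hme⟩ := atom_eig (HH (Op t) lam ω) (HH_rs _ hK lam ω).sa (dv y)
  obtain ⟨N, hN, hmN⟩ := h1 _ m' hm'
  have hm0 := hy m' hm'
  have hmN' : m' (Set.Ioi e1 \ N) = 0 := measure_mono_null
    (Set.diff_subset_diff_left (Set.Ioi_subset_Ioi he1)) hmN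
  have h3 : m' (Set.Ioi e1 ∩ N) ≠ 0 := by
    intro h
    apply hm0
    rw [← Set.inter_union_sdiff (Set.Ioi e1) N]
    exact measure_union_null h hmN'
  obtain ⟨v, hv, hvm⟩ : ∃ v ∈ Set.Ioi e1 ∩ N, m' {v} ≠ 0 := by
    by_contra hcon
    push Not at hcon
    apply h3
    have hc : (Set.Ioi e1 ∩ N).Countable := hN.mono Set.inter_subset_right
    rw [← Set.biUnion_of_singleton (Set.Ioi e1 ∩ N)]
    exact (measure_biUnion_null_iff hc).2 hcon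
  obtain ⟨ψ, hψ0, hψ⟩ := hme v hvm
  exact ⟨v, ψ, hv.1, hψ0, hψ⟩

/-! ### the lattice -/

variable {d : ℕ}

theorem conv_pow (s x : ℝ) (hs : 1 / 2 ≤ s) (hs1 : s < 1) (hx : 0 ≤ x) :
    x ^ s ≤ x + 2 * (1 - s) * x ^ (1 / 2 : ℝ) := by
  have h0 : 0 ≤ x ^ (1 / 2 : ℝ) := Real.rpow_nonneg hx _
  have h1 := Real.geom_mean_le_arith_mean2_weighted (w₁ := 1 - 2 * (1 - s)) (w₂ := 2 * (1 - s))
    (p₁ := x) (p₂ := x ^ (1 / 2 : ℝ)) (by linarith) (by linarith) hx h0 (by ring)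
  have h2 : x ^ (1 - 2 * (1 - s)) * (x ^ (1 / 2 : ℝ)) ^ (2 * (1 - s)) = x ^ s := by
    rcases hx.eq_or_lt with h | h
    · rw [← h, Real.zero_rpow (by norm_num : (1 / 2 : ℝ) ≠ 0), Real.zero_rpow (by linarith : s ≠ 0),
        Real.zero_rpow (by linarith : 2 * (1 - s) ≠ 0), mul_zero]
    · rw [← Real.rpow_mul hx, ← Real.rpow_add h]
      congr 1
      ring
  rw [h2] at h1
  have h3 : 0 ≤ 2 * (1 - s) * x := by
    have : 0 ≤ 1 - s := by linarith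
    positivity
  linarith

theorem pow_sum (a m : ℕ → ℝ) (ha : ∀ k, 0 ≤ a k) (hm : ∀ k, 0 ≤ m k)
    (hp : ∀ p : ℝ, 0 < p → Summable fun k => a k ^ p * m k) (s : ℝ) (hs : 1 / 2 ≤ s) (hs1 : s < 1) :
    ∑' k, a k ^ s * m k ≤ ∑' k, a k * m k + 2 * (1 - s) * ∑' k, a k ^ (1 / 2 : ℝ) * m k := by
  have h1 : Summable fun k => a k * m k := by
    refine (hp 1 one_pos).congr fun k => ?_
    rw [Real.rpow_one]
  have h2 := hp (1 / 2) (by norm_num)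
  rw [← tsum_mul_left, ← h1.tsum_add (h2.mul_left _)]
  refine (hp s (by linarith)).tsum_le_tsum (fun k => ?_) (h1.add (h2.mul_left _))
  have h3 := mul_le_mul_of_nonneg_right (conv_pow s (a k) hs hs1 (ha k)) (hm k)
  calc a k ^ s * m k ≤ (a k + 2 * (1 - s) * a k ^ (1 / 2 : ℝ)) * m k := h3
    _ = _ := by ring

/-- the shift in the first direction -/
def sh1 (hd : 1 ≤ d) (x : Lt d) : Lt d := x + Pi.single ⟨0, hd⟩ 1

theorem sh1_iter (hd : 1 ≤ d) (x : Lt d) (n : ℕ) : ((sh1 hd)^[n] x) ⟨0, hd⟩ = x ⟨0, hd⟩ + n := by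
  induction n with
  | zero => simp
  | succ n ih =>
    rw [Function.iterate_succ_apply']
    unfold sh1 at ih ⊢
    rw [Pi.add_apply, ih, Pi.single_eq_same]
    push_cast
    ring

theorem adj_sh1 (hd : 1 ≤ d) (x : Lt d) : 1 ≤ adj d x (sh1 hd x) := by
  classical
  unfold adj sh1
  have h1 : ∀ i ∈ (Finset.univ : Finset (Fin d)), (0 : ℝ) ≤
      ((if x + Pi.single (⟨0, hd⟩ : Fin d) (1 : ℤ) = x + Pi.single i 1 then (1 : ℝ) else 0) +
        (if x + Pi.single (⟨0, hd⟩ : Fin d) (1 : ℤ) = x - Pi.single i 1 then 1 else 0)) := by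
    intro i _
    refine add_nonneg ?_ ?_ <;> split_ifs <;> norm_num
  have h2 := Finset.single_le_sum h1 (Finset.mem_univ (⟨0, hd⟩ : Fin d))
  refine le_trans ?_ h2
  rw [if_pos rfl]
  have h3 : (0 : ℝ) ≤ (if x + Pi.single (⟨0, hd⟩ : Fin d) (1 : ℤ) = x - Pi.single ⟨0, hd⟩ 1 then
      1 else 0) := by
    split_ifs <;> norm_num
  linarith

/-- existence of eigenvalues above every `e1 < top` -/
def EXt {X : Type} (H : (X → ℂ) → X → ℂ) (top : ℝ) : Prop :=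
  ∀ e1 : ℝ, e1 < top → EXa H e1

/-- **localization near the upper band edge**, all laws of bounded density -/
theorem edgeU (d : ℕ) (hd : 1 ≤ d) (a m : ℕ → ℝ)
    (ha : ∀ k, 0 ≤ a k) (hm : ∀ k, 0 ≤ m k)
    (hp : ∀ p : ℝ, 0 < p → Summable fun k => a k ^ p * m k) (D : ℝ) (hD : 0 < D) (lam : ℝ)
    (hlam : 0 < lam) :
    ∃ δ : ℝ, 0 < δ ∧ δ ≤ 1 / 2 ∧
      ∀ A : Lt d → Lt d → ℝ, Cls d a m A →
      ∀ (μ : Measure ℝ) [IsProbabilityMeasure μ], (∀ᵐ v ∂μ, |v| ≤ 1) →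
      (∀ E : Set ℝ, MeasurableSet E → μ E ≤ ENNReal.ofReal D * volume E) →
      ∀ b : ℝ, μ (Set.Ioi b) = 0 → (∀ δ : ℝ, 0 < δ → 0 < μ (Set.Ioi (b - δ))) →
      ∀ᵐ ω ∂(Measure.infinitePi fun _ : Lt d => μ),
        PPa (HamT A lam ω) (2 * d + ∑' k, a k * m k + lam * b - δ) ∧
        EXt (HamT A lam ω) (2 * d + ∑' k, a k * m k + lam * b) := by
  obtain ⟨M, hM⟩ : ∃ M : ℝ, M = 2 * d + ∑' k, a k * m k := ⟨_, rfl⟩
  have hcn : 0 ≤ ∑' k, a k * m k := tsum_nonneg fun k => mul_nonneg (ha k) (hm k)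
  have hd1 : (1 : ℝ) ≤ d := by exact_mod_cast hd
  have hM1 : 1 ≤ M := by rw [hM]; linarith
  obtain ⟨δ, γ, hδ, hδ1, hγ, h⟩ := locU M (∑' k, a k ^ (1 / 2 : ℝ) * m k) D lam hM1
    (tsum_nonneg fun k => mul_nonneg (Real.rpow_nonneg (ha k) _) (hm k)) hD hlam
  refine ⟨δ, hδ, hδ1, ?_⟩
  intro A hA μ _ hμ hμD b hμb hsup
  rw [← hM]
  have hop := Pool.Agent.H168.Y987.op
  have hK : Rs (Op (kt A)) := (hop _ _ _ (kt_ker hA)).2.2.1
  have hloc := h (Lt d) (kt A) (by rw [hM]; exact kt_ker hA) (fun s hs hs1 x => by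
      have h1 := kt_pow hA s (by linarith) hs1.le x
      have h2 : ∀ y, ‖Op (kt A) (dv y) x‖ ^ s = |kt A x y| ^ s := by
        intro y
        rw [Op_dv hop (kt_ker hA), Complex.norm_real, Real.norm_eq_abs]
      simp only [h2] at h1
      refine ⟨h1.1, h1.2.trans ?_⟩
      have h3 := pow_sum a m ha hm hp s hs hs1
      rw [hM]
      linarith)
    (sh1 hd) (fun x => by
      have h1 := adj_sh1 hd x
      have h2 := hA.nn x (sh1 hd x)
      have h3 : 1 ≤ kt A x (sh1 hd x) := by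
        unfold kt
        linarith
      exact h3.trans (le_abs_self _))
    (fun x i j hij _ heq => by
      have h1 := congrFun heq ⟨0, hd⟩
      rw [sh1_iter, sh1_iter] at h1
      have h2 : (i : ℤ) = j := by linarith
      have h3 : i = j := by exact_mod_cast h2
      omega)
    (fun _ => 0) (fun _ _ _ => Nat.zero_le _) μ hμ hμD b hμb
  have htop : ∀ᵐ ω ∂(Measure.infinitePi fun _ : Lt d => μ), ∀ n : ℕ, ∃ u : LL (Lt d),
      (M + lam * b - 1 / ((n : ℝ) + 1)) * ‖u‖ ^ 2 < (⟪u, HH (Op (kt A)) lam ω u⟫_ℂ).re := by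
    rw [ae_all_iff]
    intro n
    refine Pool.Agent.H34.UE.topY' d (kt A) _ M hd (kt_ker hA)
      (fun x => by rw [hM]; exact (kt_hasSum hA x).tsum_eq) (kt_ap hA) μ hμ b hsup lam hlam _ ?_
    have : (0 : ℝ) < 1 / ((n : ℝ) + 1) := by positivity
    linarith
  filter_upwards [hloc, bdd_ae' μ hμ, htop] with ω hω hb' ht
  obtain ⟨h1, -, h3⟩ := hω
  refine ⟨fun f m hf hm => h1 _ m (sp_of _ _ (HH_rs _ hK lam ω).sa
      (hamt_eq hA lam ω hb') f hf m hm), fun e1 he1 => ?_⟩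
  obtain ⟨n, hn⟩ := exists_nat_one_div_lt (ε := min (M + lam * b - e1) δ)
    (lt_min (by linarith) hδ)
  have hn1 := hn.trans_le (min_le_left _ _)
  have hn2 := hn.trans_le (min_le_right _ _)
  obtain ⟨w, hw⟩ := ht n
  obtain ⟨v, u, hv, hu0, hu⟩ := h3 _ w (by linarith) hw
  refine ⟨v, fun p => u p, by linarith, ll_summable u, ?_, fun p => ?_⟩
  · by_contra hcon
    push Not at hcon
    exact hu0 (ll_ext hcon)
  · rw [hamt_eq hA lam ω hb', hu]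
    rfl

end Pool.Agent.H121.UE
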