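import Pool.Agent.H121.UE.EdgeY
import Pool.Agent.H734.UE.TopZ

/-! Project UE: localization near the upper band edge for the model on `ℤ^d × F`, for all laws of bounded
density. -/

set_option autoImplicit false
set_option linter.unusedSectionVars false

open scoped BigOperators InnerProductSpace Topology ENNReal
open Filter MeasureTheory

namespace Pool.Agent.H121.UE

open Pool.Agent.Y662.TR (LL Cf Mw dv hu lmk ll_ext ll_summable clp_eq Mw_apply dv_apply inner_dv)
open Pool.Agent.TH369.MU (SpM ep zk spm_exists)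
open Pool.Agent.H987.Z
open Pool.Agent.H987.Y (Ker Op)
open Pool.Agent.H304.Z987 (mul_summable' tsum_dv' Gr_symm Gr_im Gr_le rz_sub' Gr_sub_z_le)
open Pool.Agent.H121.Z987 (wt HH HH_apply HH_rs)
open Pool.Agent.H121.ME (fs atom_eig we we_cont we_nonneg we_le we_pos len PP ED EX bdd_ae exists_K
  ham_eq)

/-- the kernel of an operator -/
theorem op_of_rs {ι : Type} (T : LL ι →L[ℂ] LL ι) (hT : Rs T) (M : ℝ) (hM0 : 0 ≤ M)
    (hM : ∀ x, (Summable fun y => ‖T (dv y) x‖) ∧ ∑' y, ‖T (dv y) x‖ ≤ M) :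
    ∃ t : ι → ι → ℝ, Ker M t ∧ Op t = T ∧ ∀ x y, T (dv y) x = ((t x y : ℝ) : ℂ) := by
  have hsy : ∀ x y, T (dv y) x = T (dv x) y := by
    intro x y
    have h := hT.bil (dv y) (dv x)
    rw [tsum_dv'] at h
    have h2 : ∑' w, dv y w * T (dv x) w = T (dv x) y := by
      simp only [mul_comm (dv y _)]
      exact tsum_dv' _ _
    rw [h, h2]
  have hre : ∀ x y, (starRingEnd ℂ) (T (dv y) x) = T (dv y) x := by
    intro x y
    have h1 : ⟪dv x, T (dv y)⟫_ℂ = ⟪T (dv x), dv y⟫_ℂ := by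
      rw [← ContinuousLinearMap.adjoint_inner_left]
      rw [show ContinuousLinearMap.adjoint T = T from hT.sa.adjoint_eq]
    have h2 : ⟪T (dv x), dv y⟫_ℂ = (starRingEnd ℂ) (T (dv x) y) := by
      rw [← inner_conj_symm, inner_dv]
    rw [inner_dv, h2] at h1
    calc (starRingEnd ℂ) (T (dv y) x) = (starRingEnd ℂ) (T (dv x) y) := by rw [hsy x y]
      _ = T (dv y) x := h1.symm
  have ht : ∀ x y, T (dv y) x = (((T (dv y) x).re : ℝ) : ℂ) := fun x y =>
    (Complex.conj_eq_iff_re.1 (hre x y)).symm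
  have hab : ∀ x y, |(T (dv y) x).re| = ‖T (dv y) x‖ := by
    intro x y
    conv_rhs => rw [ht x y]
    rw [Complex.norm_real, Real.norm_eq_abs]
  have hK : Ker M fun x y => (T (dv y) x).re := by
    refine ⟨hM0, fun x y => by rw [hsy], fun x => ?_, fun x => ?_⟩
    · simp only [hab]
      exact (hM x).1
    · simp only [hab]
      exact (hM x).2
  refine ⟨fun x y => (T (dv y) x).re, hK, ?_, ht⟩
  ext u x
  have h1 := ((Pool.Agent.H168.Y987.op _ _ _ hK).1 u x).2
  rw [h1]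
  have h2 : ∀ y, (((T (dv y) x).re : ℝ) : ℂ) * u y = T (dv x) y * u y := by
    intro y
    rw [← ht, hsy]
  simp only [h2]
  have h3 := hT.bil (dv x) u
  rw [h3]
  simp only [mul_comm (dv x _)]
  exact tsum_dv' _ _

variable {d : ℕ} {F : Type} [Group F] [Countable F]

/-- the shift in the first direction -/
def shZ (hd : 1 ≤ d) (p : Site d F) : Site d F := (p.1 + Pi.single ⟨0, hd⟩ 1, p.2)

theorem shZ_iter (hd : 1 ≤ d) (p : Site d F) (n : ℕ) :
    ((shZ hd)^[n] p).1 ⟨0, hd⟩ = p.1 ⟨0, hd⟩ + n := by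
  induction n with
  | zero => simp
  | succ n ih =>
    rw [Function.iterate_succ_apply']
    unfold shZ at ih ⊢
    simp only [Pi.add_apply, Pi.single_eq_same]
    rw [ih]
    push_cast
    ring

/-- the matrix element of a bond in the first direction -/
theorem K_shift (hd : 1 ≤ d) (φ : Multiplicative (Fin d → ℤ) →* MulAut F) (c : F → ℝ)
    (K : LL (Site d F) →L[ℂ] LL (Site d F))
    (hK : ∀ (u : LL (Site d F)) (x : Fin d → ℤ) (f : F),
      K u (x, f) = -∑ i : Fin d, ((u (x + Pi.single i 1, f) - u (x, f)) +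
          (u (x - Pi.single i 1, f) - u (x, f))) +
        ∑' q : F, ((c q : ℝ) : ℂ) * u (x, f * φ (Multiplicative.ofAdd x) q)) (p : Site d F) :
    K (dv (shZ hd p)) p = -1 := by
  classical
  obtain ⟨x, f⟩ := p
  rw [hK]
  unfold shZ
  have h1 : ∀ g : F, dv ((x + Pi.single (⟨0, hd⟩ : Fin d) 1, f) : Site d F) (x, g) = 0 := by
    intro g
    rw [dv_apply, if_neg]
    intro h
    have h2 := congrFun (Prod.ext_iff.1 h).1 ⟨0, hd⟩
    simp only [Pi.add_apply, Pi.single_eq_same] at h2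
    omega
  simp only [h1, mul_zero, tsum_zero, add_zero, sub_zero]
  have h2 : ∀ i : Fin d, (dv ((x + Pi.single (⟨0, hd⟩ : Fin d) 1, f) : Site d F)
      (x + Pi.single i 1, f) + dv ((x + Pi.single (⟨0, hd⟩ : Fin d) 1, f) : Site d F)
      (x - Pi.single i 1, f) : ℂ) = if i = ⟨0, hd⟩ then 1 else 0 := by
    intro i
    rw [dv_apply, dv_apply]
    have h3 : ((x - Pi.single i 1, f) : Site d F) ≠ (x + Pi.single (⟨0, hd⟩ : Fin d) 1, f) := by
      intro h
      have h4 := congrFun (Prod.ext_iff.1 h).1 ⟨0, hd⟩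
      simp only [Pi.add_apply, Pi.sub_apply, Pi.single_eq_same] at h4
      by_cases hi : i = ⟨0, hd⟩
      · subst hi
        rw [Pi.single_eq_same] at h4
        omega
      · rw [Pi.single_eq_of_ne (Ne.symm hi)] at h4
        omega
    rw [if_neg h3, add_zero]
    by_cases hi : i = ⟨0, hd⟩
    · subst hi
      rw [if_pos rfl, if_pos rfl]
    · rw [if_neg hi, if_neg]
      intro h
      have h4 := congrFun (Prod.ext_iff.1 h).1 i
      simp only [Pi.add_apply, Pi.single_eq_same] at h4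
      rw [Pi.single_eq_of_ne hi] at h4
      omega
  simp only [h2]
  rw [Finset.sum_ite_eq' Finset.univ (⟨0, hd⟩ : Fin d) fun _ => (1 : ℂ)]
  simp

/-- **localization near the upper band edge** -/
theorem edgeZU (hd : 1 ≤ d) (φ : Multiplicative (Fin d → ℤ) →* MulAut F) (c : F → ℝ)
    (hlf : ∀ S : Finset F, ((Subgroup.closure (S : Set F) : Subgroup F) : Set F).Finite)
    (hfo : ∀ q : F, (Set.range fun x => φ x q).Finite)
    (hc0 : ∀ q, 0 ≤ c q) (hcs : ∀ q, c q⁻¹ = c q)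
    (hcp : ∀ p : ℝ, 0 < p → Summable fun q => c q ^ p) (D : ℝ) (hD : 0 < D) (lam : ℝ)
    (hlam : 0 < lam) :
    ∃ δ γ : ℝ, 0 < δ ∧ 0 < γ ∧
      ∀ (μ : Measure ℝ) [IsProbabilityMeasure μ], (∀ᵐ v ∂μ, |v| ≤ 1) →
      (∀ A : Set ℝ, MeasurableSet A → μ A ≤ ENNReal.ofReal D * volume A) →
      ∀ b : ℝ, μ (Set.Ioi b) = 0 → (∀ δ : ℝ, 0 < δ → 0 < μ (Set.Ioi (b - δ))) →
      ∀ᵐ ω ∂(Measure.infinitePi fun _ : Site d F => μ),
        PP (Ham φ c lam ω) (4 * d + ∑' q, c q + lam * b - δ) ∧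
        ED (Ham φ c lam ω) γ (4 * d + ∑' q, c q + lam * b - δ) ∧
        ∀ e1 : ℝ, e1 < 4 * d + ∑' q, c q + lam * b → EX (Ham φ c lam ω) e1 := by
  have hcm : Summable c := by
    refine (hcp 1 one_pos).congr fun q => ?_
    rw [Real.rpow_one]
  obtain ⟨K, hK, hKa⟩ := exists_K φ c hc0 hcs hcm
  obtain ⟨M, hM⟩ : ∃ M : ℝ, M = 4 * d + ∑' q, c q := ⟨_, rfl⟩
  have hcn : 0 ≤ ∑' q, c q := tsum_nonneg hc0
  have hd1 : (1 : ℝ) ≤ d := by exact_mod_cast hd
  have hM1 : 1 ≤ M := by rw [hM]; linarith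
  have hch := hcp (1 / 2) (by norm_num)
  obtain ⟨δ, γ, hδ, -, hγ, h⟩ := locU M (∑' q, c q ^ (1 / 2 : ℝ)) D lam hM1
    (tsum_nonneg fun k => Real.rpow_nonneg (hc0 k) _) hD hlam
  obtain ⟨t, htK, htO, htc⟩ := op_of_rs K hK M (by linarith) (fun x => by
    have h1 := (Pool.Agent.H164.ME.hops d F φ c K 1 one_pos le_rfl hc0 (hcp 1 one_pos) hKa).1 x
    simp only [Real.rpow_one] at h1
    refine ⟨h1.1, h1.2.trans ?_⟩
    rw [hM]
    linarith)
  refine ⟨δ, γ, hδ, hγ, ?_⟩
  intro μ _ hμ hμD b hμb hsup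
  rw [← hM]
  have htn : ∀ x y, ‖K (dv y) x‖ = |t x y| := by
    intro x y
    rw [htc, Complex.norm_real, Real.norm_eq_abs]
  have hloc := h (Site d F) t htK (fun s hs hs1 x => by
      have h1 := (Pool.Agent.H164.ME.hops d F φ c K s (by linarith) hs1.le hc0
        (hcp s (by linarith)) hKa).1 x
      simp only [htn] at h1
      refine ⟨h1.1, h1.2.trans ?_⟩
      have h2 : ((2 : ℝ) * d) ^ s ≤ 2 * d := by
        calc ((2 : ℝ) * d) ^ s ≤ ((2 : ℝ) * d) ^ (1 : ℝ) :=
              Real.rpow_le_rpow_of_exponent_le (by linarith) hs1.le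
          _ = 2 * d := Real.rpow_one _
      have h3 : ∑' q, c q ^ s ≤ ∑' q, c q + 2 * (1 - s) * ∑' q, c q ^ (1 / 2 : ℝ) := by
        rw [← tsum_mul_left, ← hcm.tsum_add (hch.mul_left _)]
        exact (hcp s (by linarith)).tsum_le_tsum (fun q => conv_pow s (c q) hs hs1 (hc0 q))
          (hcm.add (hch.mul_left _))
      rw [hM]
      linarith)
    (shZ hd) (fun x => by
      have h1 := htn x (shZ hd x)
      rw [K_shift hd φ c K hKa x] at h1
      rw [← h1]
      simp)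
    (fun x i j hij _ heq => by
      have h1 := congrFun (congrArg Prod.fst heq) ⟨0, hd⟩
      rw [shZ_iter, shZ_iter] at h1
      have h2 : (i : ℤ) = j := by linarith
      have h3 : i = j := by exact_mod_cast h2
      omega)
    len (fun x y hxy => by
      have h1 := (Pool.Agent.H164.ME.hops d F φ c K 1 one_pos le_rfl hc0 (hcp 1 one_pos) hKa).2 y x
      refine h1 ?_
      rw [htc, htK.sy]
      intro h2
      exact hxy (Complex.ofReal_eq_zero.1 h2)) μ hμ hμD b hμb
  rw [htO] at hloc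
  have htop : ∀ᵐ ω ∂(Measure.infinitePi fun _ : Site d F => μ), ∀ n : ℕ, ∃ u : LL (Site d F),
      (M + lam * b - 1 / ((n : ℝ) + 1)) * ‖u‖ ^ 2 < (⟪u, HH K lam ω u⟫_ℂ).re := by
    rw [ae_all_iff]
    intro n
    refine Pool.Agent.H734.UE.topZ' d F φ c K hd hc0 hcm hlf hfo hKa μ hμ b hsup lam hlam _ ?_
    have : (0 : ℝ) < 1 / ((n : ℝ) + 1) := by positivity
    rw [← hM]
    linarith
  filter_upwards [hloc, bdd_ae μ hμ, htop] with ω hω hb ht
  obtain ⟨h1, h2, h3⟩ := hω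
  have hA : ∀ (u : LL (Site d F)) (p : Site d F),
      Ham φ c lam ω (fun y => u y) p = HH K lam ω u p := ham_eq φ c K hKa lam ω hb
  refine ⟨fun f m hf hm => h1 _ m (sp_of _ _ (HH_rs K hK lam ω).sa hA f hf m hm),
    fun t u ht hu hut => ?_, fun e1 he1 => ?_⟩
  · exact h2 t (lmk u hu) ht (by
      apply ll_ext
      intro p
      rw [← hA]
      exact hut p)
  · obtain ⟨n, hn⟩ := exists_nat_one_div_lt (ε := min (M + lam * b - e1) δ)
      (lt_min (by linarith) hδ)
    have hn1 := hn.trans_le (min_le_left _ _)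
    have hn2 := hn.trans_le (min_le_right _ _)
    obtain ⟨w, hw⟩ := ht n
    obtain ⟨v, u, hv, hu0, hu⟩ := h3 _ w (by linarith) hw
    refine ⟨v, fun p => u p, by linarith, ll_summable u, ?_, fun p => ?_⟩
    · by_contra hcon
      push Not at hcon
      exact hu0 (ll_ext hcon)
    · rw [hA, hu]
      rfl

end Pool.Agent.H121.UE
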