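import Pool.Agent.H121.UE.Pw

/-! Project UE: the inequality for the expectations. -/

set_option autoImplicit false
set_option linter.unusedSectionVars false

open scoped BigOperators InnerProductSpace Topology ENNReal
open Filter MeasureTheory

namespace Pool.Agent.H121.UE

open Pool.Agent.Y662.TR hiding wt
open Pool.Agent.H987.Z (Rs Gr)
open Pool.Agent.H987.Y (Ker Op Lt S_op)
open Pool.Agent.TH369.MU (SpM ep zk)
open Pool.Agent.TH369.MU.PO2 (ep_pos ep_tendsto)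
open Pool.Agent.H121.Z987
open Pool.Agent.H121.ME (fs)
open Pool.Agent.H304.Z987 (Gr_symm)

variable {ι : Type} [Countable ι]

theorem rsO (hA : S_resA) {M : ℝ} {t : ι → ι → ℝ} (ht : Ker M t) (Ω : Set ι) :
    Rs (Op (rk Ω t)) := by
  obtain ⟨hK, -, -⟩ := hA ι M t ht Ω
  exact (Pool.Agent.H168.Y987.op _ _ _ hK).2.2.1

theorem measO (hA : S_resA) {M : ℝ} {t : ι → ι → ℝ} (ht : Ker M t) (lam : ℝ) (Ω : Set ι) (z : ℂ)
    (hz : z.im ≠ 0) (s : ℝ) (x y : ι) :
    Measurable fun ω : ι → ℝ => ‖GO t lam Ω ω z x y‖ₑ ^ s :=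
  ((Gr_meas1 (Op (rk Ω t)) (rsO hA ht Ω) lam z x y hz).enorm).pow_const s

/-- the fractional moment of the restricted Hamiltonian -/
noncomputable def fO (t : ι → ι → ℝ) (lam s : ℝ) (μ : Measure ℝ) [IsProbabilityMeasure μ]
    (Ω : Set ι) (z : ℂ) (x y : ι) : ℝ≥0∞ :=
  ∫⁻ ω, ‖GO t lam Ω ω z x y‖ₑ ^ s ∂(Measure.infinitePi fun _ : ι => μ)

/-- the supremum over all restrictions and all energies -/
noncomputable def FF (t : ι → ι → ℝ) (lam s : ℝ) (μ : Measure ℝ) [IsProbabilityMeasure μ]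
    (I : Set ℝ) (x y : ι) : ℝ≥0∞ :=
  ⨆ (p : Set ι × (I × ℕ)) (_ : x ∈ p.1 ∧ y ∈ p.1), fO t lam s μ p.1 (zk (p.2.1 : ℝ) p.2.2) x y

variable (t : ι → ι → ℝ) (lam s : ℝ) (μ : Measure ℝ) [IsProbabilityMeasure μ]

theorem le_FF (hA : S_resA) {M : ℝ} (ht : Ker M t) (hs : 0 < s) (I : Set ℝ) (Ω : Set ι) (E : I)
    (k : ℕ) (v y : ι) (hy : y ∈ Ω) :
    fO t lam s μ Ω (zk (E : ℝ) k) v y ≤ FF t lam s μ I v y := by
  by_cases hv : v ∈ Ω
  · unfold FF
    exact le_iSup₂_of_le (Ω, (E, k)) ⟨hv, hy⟩ le_rfl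
  · have h1 : fO t lam s μ Ω (zk (E : ℝ) k) v y = 0 := by
      unfold fO
      obtain ⟨-, h4, -⟩ := hA ι M t ht Ω
      have h5 : ∀ ω : ι → ℝ, ‖GO t lam Ω ω (zk (E : ℝ) k) v y‖ₑ ^ s = 0 := by
        intro ω
        rw [h4 lam ω _ v y (by rw [zk_im]; exact (ep_pos k).ne') hv hy]
        simp [hs]
      simp only [h5, lintegral_const, zero_mul]
    rw [h1]
    exact zero_le

theorem FF_symm (hA : S_resA) {M : ℝ} (ht : Ker M t) (I : Set ℝ) (x y : ι) :
    FF t lam s μ I x y = FF t lam s μ I y x := by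
  have key : ∀ x y, FF t lam s μ I x y ≤ FF t lam s μ I y x := by
    intro x y
    unfold FF
    refine iSup₂_le fun p hp => ?_
    refine le_iSup₂_of_le p ⟨hp.2, hp.1⟩ (le_of_eq ?_)
    unfold fO
    refine lintegral_congr fun ω => ?_
    unfold GO
    rw [Gr_symm _ (HH_rs _ (rsO hA ht p.1) lam ω) _ x y (by rw [zk_im]; exact (ep_pos _).ne')]
  exact le_antisymm (key x y) (key y x)

open Classical in
/-- the a priori bound -/
theorem fO_le (hA : S_resA) {M : ℝ} (ht : Ker M t) (C : ℝ) (hapr : Apr μ lam s C) (Ω : Set ι)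
    (z : ℂ) (hz : 0 < z.im) (x y : ι) : fO t lam s μ Ω z x y ≤ ENNReal.ofReal C := by
  unfold fO
  have hm := measO hA ht lam Ω z hz.ne' s x y
  by_cases hxy : x = y
  · subst hxy
    rw [lint_resample μ x _ hm]
    calc ∫⁻ ω, ∫⁻ v, ‖GO t lam Ω (Function.update ω x v) z x x‖ₑ ^ s ∂μ
          ∂(Measure.infinitePi fun _ : ι => μ) ≤
          ∫⁻ _, ENNReal.ofReal C ∂(Measure.infinitePi fun _ : ι => μ) :=
          lintegral_mono fun ω => (hapr ι _ (rsO hA ht Ω) ω z hz).1 x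
      _ = ENNReal.ofReal C := by rw [lintegral_const, measure_univ, mul_one]
  · have hm2 : Measurable fun ω : ι → ℝ => ∫⁻ v, ‖GO t lam Ω (Function.update ω y v) z x y‖ₑ ^ s ∂μ :=
      Measurable.lintegral_prod_right'
        (f := fun p : (ι → ℝ) × ℝ => ‖GO t lam Ω (Function.update p.1 y p.2) z x y‖ₑ ^ s)
        (hm.comp (update_meas y))
    rw [lint_resample μ y _ hm, lint_resample μ x _ hm2]
    calc ∫⁻ ω, ∫⁻ v, ∫⁻ w, ‖GO t lam Ω (Function.update (Function.update ω x v) y w) z x y‖ₑ ^ s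
          ∂μ ∂μ ∂(Measure.infinitePi fun _ : ι => μ) ≤
          ∫⁻ _, ENNReal.ofReal C ∂(Measure.infinitePi fun _ : ι => μ) :=
          lintegral_mono fun ω => (hapr ι _ (rsO hA ht Ω) ω z hz).2 x y hxy
      _ = ENNReal.ofReal C := by rw [lintegral_const, measure_univ, mul_one]

open Classical in
/-- the bad part -/
theorem bad_le (hA : S_resA) (hB : S_resB) (hE : S_badE) {M : ℝ} (ht : Ker M t) (hs : 0 < s)
    (hs1 : s ≤ 1) (C : ℝ) (hapr : Apr μ lam s C) (Ω : Set ι) (z : ℂ) (hz : 0 < z.im) (sh : ι → ι)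
    (hsh : ∀ x (i j : ℕ), i < j → j ≤ 4 → sh^[i] x ≠ sh^[j] x) (A : Set ℝ) (hAm : MeasurableSet A)
    (x y : ι) (hy : y ∈ Ω) (hBΩ : ((Bx sh x : Finset ι) : Set ι) ⊆ Ω) :
    ∫⁻ ω, (∏ w ∈ Bx sh x, A.indicator (fun _ => (1 : ℝ≥0∞)) (ω w)) * ‖GO t lam Ω ω z x y‖ₑ ^ s
      ∂(Measure.infinitePi fun _ : ι => μ) ≤
    ENNReal.ofReal C * (if y ∈ Bx sh x then 1 else 0) +
      ∑' v, (ENNReal.ofReal C * μ A ^ 3 * ∑ u ∈ Bx sh x, ENNReal.ofReal (|t u v| ^ s)) *
        fO t lam s μ (Ω \ (Bx sh x : Set ι)) z v y := by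
  have hcard := card_Bx sh hsh x
  have hx := self_mem_Bx sh x
  by_cases hyB : y ∈ Bx sh x
  · rw [if_pos hyB, mul_one]
    refine le_trans ?_ le_self_add
    have h1 := hE μ lam s C hs hapr ι (Op (rk Ω t)) (rsO hA ht Ω) z hz (Bx sh x) x y A
      (fun _ => 1) hx hyB hAm measurable_const (fun _ _ _ _ => rfl)
    simp only [mul_one, lintegral_const, measure_univ] at h1
    refine h1.trans ?_
    have h2 : μ A ^ ((Bx sh x).card - 2) ≤ 1 := pow_le_one₀ zero_le prob_le_one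
    calc ENNReal.ofReal C * μ A ^ ((Bx sh x).card - 2) ≤ ENNReal.ofReal C * 1 := by gcongr
      _ = _ := mul_one _
  · rw [if_neg hyB, mul_zero, zero_add]
    have hy' : y ∈ Ω \ (Bx sh x : Set ι) := ⟨hy, hyB⟩
    have hgm : ∀ v, Measurable fun ω : ι → ℝ => ‖GO t lam (Ω \ (Bx sh x : Set ι)) ω z v y‖ₑ ^ s :=
      fun v => measO hA ht lam _ z hz.ne' s v y
    have hgx : ∀ u, Measurable fun ω : ι → ℝ => ‖GO t lam Ω ω z x u‖ₑ ^ s :=
      fun u => measO hA ht lam _ z hz.ne' s x u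
    have hpm : Measurable fun ω : ι → ℝ =>
        ∏ w ∈ Bx sh x, A.indicator (fun _ => (1 : ℝ≥0∞)) (ω w) := by
      refine Finset.measurable_prod _ fun w _ => ?_
      exact (measurable_const.indicator hAm).comp (measurable_pi_apply w)
    have hmm : ∀ u v, Measurable fun ω : ι → ℝ =>
        (∏ w ∈ Bx sh x, A.indicator (fun _ => (1 : ℝ≥0∞)) (ω w)) * ‖GO t lam Ω ω z x u‖ₑ ^ s *
            ‖GO t lam (Ω \ (Bx sh x : Set ι)) ω z v y‖ₑ ^ s := fun u v =>
      (hpm.mul (hgx u)).mul (hgm v)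
    calc ∫⁻ ω, (∏ w ∈ Bx sh x, A.indicator (fun _ => (1 : ℝ≥0∞)) (ω w)) *
          ‖GO t lam Ω ω z x y‖ₑ ^ s ∂(Measure.infinitePi fun _ : ι => μ) ≤
        ∫⁻ ω, ∑ u ∈ Bx sh x, ∑' v, ENNReal.ofReal (|t u v| ^ s) *
          ((∏ w ∈ Bx sh x, A.indicator (fun _ => (1 : ℝ≥0∞)) (ω w)) * ‖GO t lam Ω ω z x u‖ₑ ^ s *
            ‖GO t lam (Ω \ (Bx sh x : Set ι)) ω z v y‖ₑ ^ s)
          ∂(Measure.infinitePi fun _ : ι => μ) := by
          refine lintegral_mono fun ω => ?_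
          refine le_trans (mul_le_mul_right (hB ι M t ht Ω (Bx sh x) hBΩ lam ω z s x y hz.ne' hs
            hs1 hx hy hyB) _) (le_of_eq ?_)
          rw [Finset.mul_sum]
          refine Finset.sum_congr rfl fun u _ => ?_
          rw [← ENNReal.tsum_mul_left, ← ENNReal.tsum_mul_left]
          exact tsum_congr fun v => by ring
      _ = ∑ u ∈ Bx sh x, ∑' v, ENNReal.ofReal (|t u v| ^ s) *
          ∫⁻ ω, (∏ w ∈ Bx sh x, A.indicator (fun _ => (1 : ℝ≥0∞)) (ω w)) *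
            ‖GO t lam Ω ω z x u‖ₑ ^ s *
            ‖GO t lam (Ω \ (Bx sh x : Set ι)) ω z v y‖ₑ ^ s
          ∂(Measure.infinitePi fun _ : ι => μ) := by
          rw [lintegral_finsetSum' _ fun u _ => ?_]
          · refine Finset.sum_congr rfl fun u _ => ?_
            rw [lintegral_tsum fun v => ((hmm u v).const_mul _).aemeasurable]
            refine tsum_congr fun v => ?_
            rw [lintegral_const_mul _ (hmm u v)]
          · exact (Measurable.tsum fun v => (hmm u v).const_mul _).aemeasurable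
      _ ≤ ∑ u ∈ Bx sh x, ∑' v, ENNReal.ofReal (|t u v| ^ s) *
          (ENNReal.ofReal C * μ A ^ 3 * fO t lam s μ (Ω \ (Bx sh x : Set ι)) z v y) := by
          refine Finset.sum_le_sum fun u hu => ENNReal.tsum_le_tsum fun v => ?_
          gcongr
          have h1 := hE μ lam s C hs hapr ι (Op (rk Ω t)) (rsO hA ht Ω) z hz (Bx sh x) x u A
            (fun ω => ‖GO t lam (Ω \ (Bx sh x : Set ι)) ω z v y‖ₑ ^ s) hx hu hAm (hgm v)
            (fun ω w hw r => by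
              obtain ⟨-, -, h4⟩ := hA ι M t ht (Ω \ (Bx sh x : Set ι))
              rw [h4 lam ω z w r v y hz.ne' (fun h => h.2 hw) hy'])
          rw [hcard] at h1
          exact h1
      _ = _ := by
          rw [← Summable.tsum_finsetSum fun i _ => ENNReal.summable]
          refine tsum_congr fun v => ?_
          rw [Finset.mul_sum, Finset.sum_mul]
          refine Finset.sum_congr rfl fun u _ => by ring

end Pool.Agent.H121.UE
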