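import Pool.Agent.H121.UE.Ex

/-! Project UE: the fractional moments are summable. -/

set_option autoImplicit false
set_option linter.unusedSectionVars false

open scoped BigOperators InnerProductSpace Topology ENNReal
open Filter MeasureTheory

namespace Pool.Agent.H121.UE

open Pool.Agent.Y662.TR hiding wt
open Pool.Agent.H987.Z (Rs Gr)
open Pool.Agent.H987.Y (Ker Op Lt S_op)
open Pool.Agent.TH369.MU (SpM ep zk)
open Pool.Agent.TH369.MU.PO2 (ep_pos ep_tendsto)
open Pool.Agent.H121.Z987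
open Pool.Agent.H121.ME (fs)
open Pool.Agent.H304.Z987 (Gr_symm)

variable {ι : Type} [Countable ι]

variable (t : ι → ι → ℝ) (lam s : ℝ) (μ : Measure ℝ) [IsProbabilityMeasure μ]

/-- the weights of the inequality for the expectations -/
noncomputable def Wt (sh : ι → ι) (m c C p : ℝ) (x v : ι) : ℝ≥0∞ :=
  Wb (Pm t s m) (ENNReal.ofReal ((m / (m + c)) ^ s)) (ch sh x) 4 v +
    ENNReal.ofReal C * ENNReal.ofReal p ^ 3 * ∑ u ∈ Bx sh x, ENNReal.ofReal (|t u v| ^ s)

open Classical in
/-- the sources -/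
noncomputable def St (sh : ι → ι) (m C : ℝ) (x y : ι) : ℝ≥0∞ :=
  ∑ i ∈ Finset.range 5, pk (Pm t s m) (ch sh x) i * cs s m y (ch sh x i) +
    ENNReal.ofReal C * (if y ∈ Bx sh x then 1 else 0)

open Classical in
/-- **the inequality for the suprema** -/
theorem FF_ineq (hA : S_resA) (hB : S_resB) (hE : S_badE) (hch : S_chain) {M : ℝ} (ht : Ker M t)
    (hs : 0 < s) (hs1 : s ≤ 1) (C : ℝ) (hapr : Apr μ lam s C) (b : ℝ) (hlam : 0 < lam)
    (hμ : ∀ᵐ v ∂μ, |v| ≤ 1) (hμb : μ (Set.Ioi b) = 0) (m c p : ℝ) (hm : 0 < m) (hc : 0 < c)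
    (hp : μ (Ab lam b c) ≤ ENNReal.ofReal p) (e : ℝ) (he : m + lam * b ≤ e) (sh : ι → ι)
    (hsh : ∀ x (i j : ℕ), i < j → j ≤ 4 → sh^[i] x ≠ sh^[j] x) (x y : ι) :
    FF t lam s μ (Set.Ioi e) x y ≤ St t s sh m C x y +
      ∑' v, Wt t s sh m c C p x v * FF t lam s μ (Set.Ioi e) v y := by
  have hz : ∀ (E : ℝ) (k : ℕ), 0 < (zk E k).im := fun E k => by rw [zk_im]; exact ep_pos _
  have hbd : ∀ᵐ ω ∂(Measure.infinitePi fun _ : ι => μ), ∀ g, |ω g| ≤ 1 ∧ ω g ≤ b := by
    rw [ae_all_iff]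
    intro g
    have h1 := (measurePreserving_eval_infinitePi (fun _ : ι => μ)
      g).quasiMeasurePreserving
    have h2 : ∀ᵐ v ∂μ, |v| ≤ 1 ∧ v ≤ b := by
      have h3 : ∀ᵐ v ∂μ, v ≤ b := by
        rw [ae_iff]
        convert hμb using 2
        ext v
        simp
      filter_upwards [hμ, h3] with v h4 h5
      exact ⟨h4, h5⟩
    exact h1.ae h2
  have key : ∀ (Ω : Set ι) (E : Set.Ioi e) (k : ℕ), x ∈ Ω → y ∈ Ω →
      fO t lam s μ Ω (zk (E : ℝ) k) x y ≤ St t s sh m C x y +
        ∑' v, Wt t s sh m c C p x v * FF t lam s μ (Set.Ioi e) v y := by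
    intro Ω E k hx hy
    obtain ⟨z, hzd⟩ : ∃ z, z = zk (E : ℝ) k := ⟨_, rfl⟩
    have hzi : 0 < z.im := by rw [hzd]; exact hz _ _
    have hzr : m + lam * b ≤ z.re := by
      have h1 : z.re = (E : ℝ) := by rw [hzd, zk_eq]; simp
      have h2 : e < (E : ℝ) := E.2
      rw [h1]
      linarith
    have hmO : ∀ v, Measurable fun ω : ι → ℝ => ‖GO t lam Ω ω z v y‖ₑ ^ s := fun v =>
      measO hA ht lam Ω z hzi.ne' s v y
    have hpm : Measurable fun ω : ι → ℝ =>
        ∏ w ∈ Bx sh x, (Ab lam b c).indicator (fun _ => (1 : ℝ≥0∞)) (ω w) := by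
      refine Finset.measurable_prod _ fun w _ => ?_
      exact (measurable_const.indicator (Ab_meas lam b c)).comp (measurable_pi_apply w)
    -- the bad part
    have hbad : ∫⁻ ω, (if ((Bx sh x : Finset ι) : Set ι) ⊆ Ω then
        (∏ w ∈ Bx sh x, (Ab lam b c).indicator (fun _ => (1 : ℝ≥0∞)) (ω w)) *
          ‖GO t lam Ω ω z x y‖ₑ ^ s else 0) ∂(Measure.infinitePi fun _ : ι => μ) ≤
        ENNReal.ofReal C * (if y ∈ Bx sh x then 1 else 0) +
      ∑' v, (ENNReal.ofReal C * ENNReal.ofReal p ^ 3 *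
        ∑ u ∈ Bx sh x, ENNReal.ofReal (|t u v| ^ s)) * FF t lam s μ (Set.Ioi e) v y := by
      by_cases hBΩ : ((Bx sh x : Finset ι) : Set ι) ⊆ Ω
      · simp only [if_pos hBΩ]
        by_cases hyB : y ∈ Bx sh x
        · have h1 := bad_le t lam s μ hA hB hE ht hs hs1 C hapr Ω z hzi sh hsh (Ab lam b c)
            (Ab_meas lam b c) x y hy hBΩ
          have hcard := card_Bx sh hsh x
          have hxx := self_mem_Bx sh x
          rw [if_pos hyB, mul_one]
          refine le_trans ?_ le_self_add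
          have h1 := hE μ lam s C hs hapr ι (Op (rk Ω t)) (rsO hA ht Ω) z hzi (Bx sh x) x y
            (Ab lam b c) (fun _ => 1) hxx hyB (Ab_meas lam b c) measurable_const
            (fun _ _ _ _ => rfl)
          simp only [mul_one, lintegral_const, measure_univ] at h1
          refine h1.trans ?_
          have h2 : μ (Ab lam b c) ^ ((Bx sh x).card - 2) ≤ 1 := pow_le_one₀ zero_le prob_le_one
          calc ENNReal.ofReal C * μ (Ab lam b c) ^ ((Bx sh x).card - 2) ≤
                ENNReal.ofReal C * 1 := by gcongr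
            _ = _ := mul_one _
        · refine (bad_le t lam s μ hA hB hE ht hs hs1 C hapr Ω z hzi sh hsh (Ab lam b c)
            (Ab_meas lam b c) x y hy hBΩ).trans ?_
          gcongr with v
          rw [hzd]
          exact le_FF t lam s μ hA ht hs _ _ E k v y ⟨hy, hyB⟩
      · simp only [if_neg hBΩ, lintegral_zero]
        exact zero_le
    have hg1 : ∫⁻ ω, (∑ i ∈ Finset.range 5, pk (Pm t s m) (ch sh x) i * cs s m y (ch sh x i) +
        ∑' v, Wb (Pm t s m) (ENNReal.ofReal ((m / (m + c)) ^ s)) (ch sh x) 4 v *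
          ‖GO t lam Ω ω z v y‖ₑ ^ s) ∂(Measure.infinitePi fun _ : ι => μ) ≤
        ∑ i ∈ Finset.range 5, pk (Pm t s m) (ch sh x) i * cs s m y (ch sh x i) +
        ∑' v, Wb (Pm t s m) (ENNReal.ofReal ((m / (m + c)) ^ s)) (ch sh x) 4 v *
          FF t lam s μ (Set.Ioi e) v y := by
      rw [lintegral_add_left measurable_const, lintegral_const, measure_univ, mul_one,
        lintegral_tsum fun v => ((hmO v).const_mul _).aemeasurable]
      gcongr with v
      rw [lintegral_const_mul _ (hmO v), hzd]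
      gcongr
      exact le_FF t lam s μ hA ht hs _ Ω E k v y hy
    rw [← hzd]
    calc fO t lam s μ Ω z x y ≤ ∫⁻ ω, ((∑ i ∈ Finset.range 5,
          pk (Pm t s m) (ch sh x) i * cs s m y (ch sh x i) +
        ∑' v, Wb (Pm t s m) (ENNReal.ofReal ((m / (m + c)) ^ s)) (ch sh x) 4 v *
          ‖GO t lam Ω ω z v y‖ₑ ^ s) + (if ((Bx sh x : Finset ι) : Set ι) ⊆ Ω then
        (∏ w ∈ Bx sh x, (Ab lam b c).indicator (fun _ => (1 : ℝ≥0∞)) (ω w)) *
          ‖GO t lam Ω ω z x y‖ₑ ^ s else 0)) ∂(Measure.infinitePi fun _ : ι => μ) := by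
          unfold fO
          refine lintegral_mono_ae ?_
          filter_upwards [hbd] with ω hω
          exact pw hA hch ht lam b hlam Ω ω (fun g => (hω g).1) (fun g => (hω g).2) z hzi.ne' s hs
            hs1 m c hm hc hzr sh x y hy
      _ ≤ _ := by
          have hgm : Measurable fun ω : ι → ℝ =>
              (∑ i ∈ Finset.range 5, pk (Pm t s m) (ch sh x) i * cs s m y (ch sh x i) +
                ∑' v, Wb (Pm t s m) (ENNReal.ofReal ((m / (m + c)) ^ s)) (ch sh x) 4 v *
                  ‖GO t lam Ω ω z v y‖ₑ ^ s) :=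
            measurable_const.add (Measurable.tsum fun v => (hmO v).const_mul _)
          rw [lintegral_add_left hgm]
          refine (add_le_add hg1 hbad).trans (le_of_eq ?_)
          unfold St Wt
          have e1 : ∀ v, (Wb (Pm t s m) (ENNReal.ofReal ((m / (m + c)) ^ s)) (ch sh x) 4 v +
              ENNReal.ofReal C * ENNReal.ofReal p ^ 3 *
                ∑ u ∈ Bx sh x, ENNReal.ofReal (|t u v| ^ s)) * FF t lam s μ (Set.Ioi e) v y =
              Wb (Pm t s m) (ENNReal.ofReal ((m / (m + c)) ^ s)) (ch sh x) 4 v *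
                FF t lam s μ (Set.Ioi e) v y +
              ENNReal.ofReal C * ENNReal.ofReal p ^ 3 *
                (∑ u ∈ Bx sh x, ENNReal.ofReal (|t u v| ^ s)) * FF t lam s μ (Set.Ioi e) v y :=
            fun v => add_mul _ _ _
          simp only [e1]
          rw [ENNReal.tsum_add]
          ring
  unfold FF
  exact iSup₂_le fun q hq => key q.1 q.2.1 q.2.2 hq.1 hq.2

end Pool.Agent.H121.UE
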