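import Pool.Agent.H121.UE.Fsum
import Pool.Agent.H79.UE.Rowb

/-! Project UE: row sums of the weights, the summability of the fractional moments. -/

set_option autoImplicit false
set_option linter.unusedSectionVars false

open scoped BigOperators InnerProductSpace Topology ENNReal
open Filter MeasureTheory

namespace Pool.Agent.H121.UE

open Pool.Agent.Y662.TR hiding wt
open Pool.Agent.H987.Z (Rs Gr)
open Pool.Agent.H987.Y (Ker Op Lt S_op)
open Pool.Agent.TH369.MU (SpM ep zk)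
open Pool.Agent.TH369.MU.PO2 (ep_pos ep_tendsto)
open Pool.Agent.H121.Z987 hiding fs
open Pool.Agent.H121.ME (fs)
open Pool.Agent.H304.Z987 (Gr_symm)

variable {ι : Type} [Countable ι]

theorem rk_univ (t : ι → ι → ℝ) : rk Set.univ t = t := by
  funext x y
  unfold rk
  simp

theorem fs_le_FF (t : ι → ι → ℝ) (lam s : ℝ) (μ : Measure ℝ) [IsProbabilityMeasure μ] (I : Set ℝ)
    (x y : ι) : fs I (Op t) lam s μ y x ≤ FF t lam s μ I x y := by
  unfold fs FF
  refine iSup_le fun p => ?_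
  refine le_iSup₂_of_le (Set.univ, p) ⟨trivial, trivial⟩ (le_of_eq ?_)
  unfold fm fO GO
  rw [rk_univ]

theorem muAb (μ : Measure ℝ) (D lam b c : ℝ) (hD : 0 < D) (hlam : 0 < lam)
    (hμD : ∀ A : Set ℝ, MeasurableSet A → μ A ≤ ENNReal.ofReal D * volume A)
    (hμb : μ (Set.Ioi b) = 0) : μ (Ab lam b c) ≤ ENNReal.ofReal (D * c / lam) := by
  have h1 : Ab lam b c ⊆ Set.Ioc (b - c / lam) b ∪ Set.Ioi b := by
    intro v hv
    have hv' : lam * (b - v) < c := hv
    by_cases h : v ≤ b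
    · left
      refine ⟨?_, h⟩
      have : b - v < c / lam := by rw [lt_div_iff₀ hlam]; linarith
      linarith
    · right
      exact not_le.1 h
  calc μ (Ab lam b c) ≤ μ (Set.Ioc (b - c / lam) b ∪ Set.Ioi b) := measure_mono h1
    _ ≤ μ (Set.Ioc (b - c / lam) b) + μ (Set.Ioi b) := measure_union_le _ _
    _ ≤ ENNReal.ofReal D * volume (Set.Ioc (b - c / lam) b) + 0 := by
        rw [hμb]
        gcongr
        exact hμD _ measurableSet_Ioc
    _ = ENNReal.ofReal D * ENNReal.ofReal (c / lam) := by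
        rw [Real.volume_Ioc, add_zero]
        congr 2
        ring
    _ = _ := by rw [← ENNReal.ofReal_mul hD.le, mul_div_assoc]

theorem t_row (t : ι → ι → ℝ) (s S : ℝ) (x : ι) (h1 : Summable fun y => |t x y| ^ s)
    (h2 : ∑' y, |t x y| ^ s ≤ S) : ∑' u, ENNReal.ofReal (|t x u| ^ s) ≤ ENNReal.ofReal S := by
  rw [← ENNReal.ofReal_tsum_of_nonneg (fun y => by positivity) h1]
  exact ENNReal.ofReal_le_ofReal h2

theorem Pm_row (t : ι → ι → ℝ) (s m S η : ℝ) (x : ι) (h1 : Summable fun y => |t x y| ^ s)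
    (h2 : ∑' y, |t x y| ^ s ≤ S) (hm : 0 < m) (hη : 0 ≤ η) (h3 : S * m ^ (-s) ≤ 1 + η) :
    ∑' u, Pm t s m x u ≤ 1 + ENNReal.ofReal η := by
  have hS : 0 ≤ S := le_trans (tsum_nonneg fun y => by positivity) h2
  unfold Pm
  rw [ENNReal.tsum_mul_right]
  calc (∑' u, ENNReal.ofReal (|t x u| ^ s)) * ENNReal.ofReal (m ^ (-s)) ≤
        ENNReal.ofReal S * ENNReal.ofReal (m ^ (-s)) := by
        gcongr
        exact t_row t s S x h1 h2
    _ = ENNReal.ofReal (S * m ^ (-s)) := (ENNReal.ofReal_mul hS).symm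
    _ ≤ ENNReal.ofReal (1 + η) := ENNReal.ofReal_le_ofReal h3
    _ = _ := by rw [ENNReal.ofReal_add (by norm_num) hη, ENNReal.ofReal_one]

theorem ch_succ (sh : ι → ι) (x : ι) (i : ℕ) : ch sh x (i + 1) = sh (ch sh x i) :=
  Function.iterate_succ_apply' sh i x

theorem r_ch (t : ι → ι → ℝ) (sh : ι → ι) (h1 : ∀ x, 1 ≤ |t x (sh x)|) (r : ι → ℕ)
    (hr : ∀ x y, t x y ≠ 0 → r y ≤ r x + 1) (x : ι) (i : ℕ) : r (ch sh x i) ≤ r x + i := by
  induction i with
  | zero => exact le_rfl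
  | succ i ih =>
    have h2 : t (ch sh x i) (ch sh x (i + 1)) ≠ 0 := by
      rw [ch_succ]
      intro h
      have h3 := h1 (ch sh x i)
      rw [h, abs_zero] at h3
      linarith
    have h3 := hr _ _ h2
    omega

theorem Wt_far (t : ι → ι → ℝ) (s : ℝ) (hs : 0 < s) (sh : ι → ι) (h1 : ∀ x, 1 ≤ |t x (sh x)|)
    (r : ι → ℕ) (hr : ∀ x y, t x y ≠ 0 → r y ≤ r x + 1) (m c C p : ℝ) (x v : ι)
    (hv : Wt t s sh m c C p x v ≠ 0) : r v ≤ r x + 5 := by
  by_contra hcon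
  apply hv
  have h2 : ∀ i ≤ 4, t (ch sh x i) v = 0 := by
    intro i hi
    by_contra h
    have h3 := hr _ _ h
    have h4 := r_ch t sh h1 r hr x i
    omega
  have h3 : ∀ i ≤ 4, Pm t s m (ch sh x i) v = 0 := by
    intro i hi
    unfold Pm
    rw [h2 i hi, abs_zero, Real.zero_rpow hs.ne', ENNReal.ofReal_zero, zero_mul]
  have h4 : Wb (Pm t s m) (ENNReal.ofReal ((m / (m + c)) ^ s)) (ch sh x) 4 v = 0 := by
    unfold Wb
    rw [h3 4 le_rfl, mul_zero, add_zero]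
    refine Finset.sum_eq_zero fun i hi => ?_
    rw [Finset.mem_range] at hi
    rw [h3 i (by omega)]
    simp
  have h5 : ∑ u ∈ Bx sh x, ENNReal.ofReal (|t u v| ^ s) = 0 := by
    refine Finset.sum_eq_zero fun u hu => ?_
    rw [mem_Bx] at hu
    obtain ⟨i, hi, rfl⟩ := hu
    rw [h2 i hi, abs_zero, Real.zero_rpow hs.ne', ENNReal.ofReal_zero]
  unfold Wt
  rw [h4, h5, mul_zero, add_zero]

theorem St_far (t : ι → ι → ℝ) (s : ℝ) (sh : ι → ι) (h1 : ∀ x, 1 ≤ |t x (sh x)|)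
    (r : ι → ℕ) (hr : ∀ x y, t x y ≠ 0 → r y ≤ r x + 1) (m C : ℝ) (x y : ι)
    (hy : St t s sh m C x y ≠ 0) : r y ≤ r x + 5 := by
  by_contra hcon
  apply hy
  have h2 : ∀ i ≤ 4, ch sh x i ≠ y := by
    rintro i hi rfl
    have h4 := r_ch t sh h1 r hr x i
    omega
  unfold St
  have h3 : y ∉ Bx sh x := by
    rw [mem_Bx]
    rintro ⟨i, hi, h⟩
    exact h2 i hi h
  rw [if_neg h3, mul_zero, add_zero]
  refine Finset.sum_eq_zero fun i hi => ?_
  rw [Finset.mem_range] at hi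
  unfold cs
  rw [if_neg (h2 i (by omega)), mul_zero, mul_zero]

/-- row sums of the weights -/
theorem Wt_row (hR : S_rowb) (t : ι → ι → ℝ) (s : ℝ) (sh : ι → ι)
    (h1 : ∀ x, 1 ≤ |t x (sh x)|) (m c C p S η : ℝ) (hs : 0 < s) (hm : 0 < m) (hc : 0 < c)
    (hC : 0 ≤ C) (hp : 0 ≤ p) (hS : 0 ≤ S) (hη : 0 ≤ η) (hη1 : η ≤ 1)
    (hsh : ∀ x (i j : ℕ), i < j → j ≤ 4 → sh^[i] x ≠ sh^[j] x)
    (h2 : ∀ x, (Summable fun y => |t x y| ^ s) ∧ ∑' y, |t x y| ^ s ≤ S)
    (h3 : S * m ^ (-s) ≤ 1 + η) (x : ι) :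
    ∑' v, Wt t s sh m c C p x v ≤ ENNReal.ofReal (1 + 32 * η + C * p ^ 3 * (5 * S) -
      (m ^ (-s)) ^ 4 * (1 - (m / (m + c)) ^ s)) := by
  obtain ⟨k, hk⟩ : ∃ k, k = (m / (m + c)) ^ s := ⟨_, rfl⟩
  have hk0 : 0 ≤ k := by rw [hk]; positivity
  have hk1 : k ≤ 1 := by
    rw [hk]
    apply Real.rpow_le_one (by positivity) _ hs.le
    rw [div_le_one (by linarith)]
    linarith
  obtain ⟨a, ha⟩ : ∃ a, a = m ^ (-s) := ⟨_, rfl⟩
  have ha0 : 0 < a := by rw [ha]; positivity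
  have hrow : ∀ w, ∑' u, Pm t s m w u ≤ 1 + ENNReal.ofReal η := fun w =>
    Pm_row t s m S η w (h2 w).1 (h2 w).2 hm hη h3
  have h4 := hR ι (Pm t s m) (ENNReal.ofReal k) (ch sh x) 4 (ENNReal.ofReal η) (ENNReal.ofReal a)
    (by rw [← ENNReal.ofReal_one]; exact ENNReal.ofReal_le_ofReal hk1)
    (by rw [← ENNReal.ofReal_one]; exact ENNReal.ofReal_le_ofReal hη1)
    (fun i _ => hrow _)
    (fun i _ => by
      unfold Pm
      rw [ch_succ, ← ha]
      calc ENNReal.ofReal a = 1 * ENNReal.ofReal a := (one_mul _).symm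
        _ ≤ _ := by
          gcongr
          rw [← ENNReal.ofReal_one]
          exact ENNReal.ofReal_le_ofReal (Real.one_le_rpow (h1 _) hs.le))
  have e1 : (1 : ℝ≥0∞) - ENNReal.ofReal k = ENNReal.ofReal (1 - k) := by
    rw [ENNReal.ofReal_sub _ hk0, ENNReal.ofReal_one]
  have e2 : ENNReal.ofReal a ^ 4 * (1 - ENNReal.ofReal k) = ENNReal.ofReal (a ^ 4 * (1 - k)) := by
    rw [e1, ← ENNReal.ofReal_pow ha0.le, ← ENNReal.ofReal_mul (by positivity)]
  have e3 : (1 : ℝ≥0∞) + 2 ^ (4 + 1) * ENNReal.ofReal η = ENNReal.ofReal (1 + 32 * η) := by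
    rw [ENNReal.ofReal_add (by norm_num) (by positivity), ENNReal.ofReal_one,
      ENNReal.ofReal_mul (by norm_num)]
    congr 2
    norm_num
  rw [e2, e3] at h4
  have h5 : ∑' v, ENNReal.ofReal C * ENNReal.ofReal p ^ 3 *
      ∑ u ∈ Bx sh x, ENNReal.ofReal (|t u v| ^ s) ≤ ENNReal.ofReal (C * p ^ 3 * (5 * S)) := by
    rw [ENNReal.tsum_mul_left, Summable.tsum_finsetSum fun i _ => ENNReal.summable,
      ENNReal.ofReal_mul (by positivity), ENNReal.ofReal_mul hC, ENNReal.ofReal_pow hp]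
    gcongr
    calc ∑ i ∈ Bx sh x, ∑' b, ENNReal.ofReal (|t i b| ^ s) ≤
          ∑ _i ∈ Bx sh x, ENNReal.ofReal S :=
          Finset.sum_le_sum fun i _ => t_row t s S i (h2 i).1 (h2 i).2
      _ = ENNReal.ofReal (5 * S) := by
          rw [Finset.sum_const, card_Bx sh hsh x, nsmul_eq_mul, ENNReal.ofReal_mul (by norm_num)]
          congr 1
          norm_num
  have h6 : ∑' v, Wt t s sh m c C p x v =
      ∑' v, Wb (Pm t s m) (ENNReal.ofReal k) (ch sh x) 4 v +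
      ∑' v, ENNReal.ofReal C * ENNReal.ofReal p ^ 3 *
        ∑ u ∈ Bx sh x, ENNReal.ofReal (|t u v| ^ s) := by
    unfold Wt
    rw [ENNReal.tsum_add, ← hk]
  rw [h6, ← hk, ← ha, ENNReal.ofReal_sub _ (by
    have : 0 ≤ 1 - k := by linarith
    positivity)]
  apply ENNReal.le_sub_of_add_le_right ENNReal.ofReal_ne_top
  rw [ENNReal.ofReal_add (by positivity) (by positivity)]
  calc _ = (∑' v, Wb (Pm t s m) (ENNReal.ofReal k) (ch sh x) 4 v + ENNReal.ofReal
      (a ^ 4 * (1 - k))) + ∑' v, ENNReal.ofReal C * ENNReal.ofReal p ^ 3 *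
        ∑ u ∈ Bx sh x, ENNReal.ofReal (|t u v| ^ s) := by ring
    _ ≤ _ := add_le_add h4 h5

open Classical in
/-- row sums of the sources -/
theorem St_row (t : ι → ι → ℝ) (s : ℝ) (sh : ι → ι) (m C S η : ℝ) (hm : 0 < m)
    (hη : 0 ≤ η) (hη1 : η ≤ 1)
    (hsh : ∀ x (i j : ℕ), i < j → j ≤ 4 → sh^[i] x ≠ sh^[j] x)
    (h2 : ∀ x, (Summable fun y => |t x y| ^ s) ∧ ∑' y, |t x y| ^ s ≤ S)
    (h3 : S * m ^ (-s) ≤ 1 + η) (x : ι) :
    ∑' y, St t s sh m C x y ≤ 5 * (16 * ENNReal.ofReal (m ^ (-s))) + ENNReal.ofReal C * 5 := by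
  have hrow : ∀ w, ∑' u, Pm t s m w u ≤ 1 + ENNReal.ofReal η := fun w =>
    Pm_row t s m S η w (h2 w).1 (h2 w).2 hm hη h3
  have hpk := Pool.Agent.H79.UE.pk_le (Pm t s m) (ch sh x) 5 (ENNReal.ofReal η)
    (by rw [← ENNReal.ofReal_one]; exact ENNReal.ofReal_le_ofReal hη1) (fun i _ => hrow _)
  unfold St
  rw [ENNReal.tsum_add]
  refine add_le_add ?_ ?_
  · rw [Summable.tsum_finsetSum fun i _ => ENNReal.summable]
    calc ∑ i ∈ Finset.range 5, ∑' y, pk (Pm t s m) (ch sh x) i * cs s m y (ch sh x i) ≤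
          ∑ _i ∈ Finset.range 5, 16 * ENNReal.ofReal (m ^ (-s)) := by
          refine Finset.sum_le_sum fun i hi => ?_
          rw [Finset.mem_range] at hi
          rw [ENNReal.tsum_mul_left]
          unfold cs
          rw [ENNReal.tsum_mul_left]
          have e1 : ∑' y, (if ch sh x i = y then (1 : ℝ≥0∞) else 0) = 1 := by
            rw [tsum_eq_single (ch sh x i) (fun y hy => if_neg (Ne.symm hy)), if_pos rfl]
          rw [e1, mul_one]
          gcongr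
          calc pk (Pm t s m) (ch sh x) i ≤ 2 ^ i := hpk i (by omega)
            _ ≤ 2 ^ 4 := pow_le_pow_right₀ (by norm_num) (by omega)
            _ = 16 := by norm_num
      _ = _ := by
          rw [Finset.sum_const, Finset.card_range, nsmul_eq_mul]
          norm_num
  · rw [ENNReal.tsum_mul_left]
    gcongr
    rw [tsum_eq_sum (s := Bx sh x) (fun y hy => if_neg hy)]
    rw [Finset.sum_congr rfl fun y hy => if_pos hy, Finset.sum_const, card_Bx sh hsh x]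
    norm_num

/-- **the fractional moments are summable** (the width `δ` of the window does not depend on `b`) -/
theorem fsum (hA : S_resA) (hB : S_resB) (hE : S_badE) (hch : S_chain) (hR : S_rowb) (hI : S_itr)
    (hap : S_aprB) (hpar : S_par) (M M' D lam : ℝ) (hM : 1 ≤ M) (hM' : 0 ≤ M') (hD : 0 < D)
    (hlam : 0 < lam) : ∃ s δ γ : ℝ, 0 < s ∧ s < 1 ∧ 0 < δ ∧ δ ≤ 1 / 2 ∧ 0 < γ ∧
    ∀ (ι : Type) [Countable ι] (t : ι → ι → ℝ), Ker M t →
      (∀ s : ℝ, 1 / 2 ≤ s → s < 1 → ∀ x, (Summable fun y => |t x y| ^ s) ∧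
        ∑' y, |t x y| ^ s ≤ M + 2 * (1 - s) * M') →
      ∀ (sh : ι → ι), (∀ x, 1 ≤ |t x (sh x)|) →
      (∀ x (i j : ℕ), i < j → j ≤ 4 → sh^[i] x ≠ sh^[j] x) →
      ∀ (r : ι → ℕ), (∀ x y, t x y ≠ 0 → r y ≤ r x + 1) →
      ∀ (μ : Measure ℝ) [IsProbabilityMeasure μ], (∀ᵐ v ∂μ, |v| ≤ 1) →
        (∀ A : Set ℝ, MeasurableSet A → μ A ≤ ENNReal.ofReal D * volume A) →
        ∀ b : ℝ, μ (Set.Ioi b) = 0 → ∀ y,
        ∑' x, ENNReal.ofReal (Real.exp (γ * r x)) *
          fs (Set.Ioi (M + lam * b - δ)) (Op t) lam s μ y x ≠ ∞ := by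
  classical
  obtain ⟨C, hC, hCs⟩ := hap D lam hD hlam
  obtain ⟨s, δ, c, η, hs2, hs1, hδ, hδ2, hc, hη, hη1, hp1, hp2⟩ := hpar M M' C D lam hM hM' hC hD hlam
  have hs : 0 < s := by linarith
  obtain ⟨m, hm⟩ : ∃ m, m = M - δ := ⟨_, rfl⟩
  rw [← hm] at hp1 hp2
  have hm0 : 0 < m := by rw [hm]; linarith
  obtain ⟨S, hS⟩ : ∃ S, S = M + 2 * (1 - s) * M' := ⟨_, rfl⟩
  have hS0 : 0 ≤ S := by
    rw [hS]
    have : 0 ≤ 2 * (1 - s) * M' := by
      have : 0 ≤ 1 - s := by linarith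
      positivity
    linarith
  rw [← hS] at hp1 hp2
  obtain ⟨C', hC'⟩ : ∃ C', C' = C / (1 - s) := ⟨_, rfl⟩
  have hC'0 : 0 ≤ C' := by
    rw [hC']
    have : 0 < 1 - s := by linarith
    positivity
  rw [← hC'] at hp2
  obtain ⟨p, hp⟩ : ∃ p, p = D * c / lam := ⟨_, rfl⟩
  have hp0 : 0 ≤ p := by rw [hp]; positivity
  rw [← hp] at hp2
  obtain ⟨r0, hr0⟩ : ∃ r0, r0 = 1 + 32 * η + C' * p ^ 3 * (5 * S) -
      (m ^ (-s)) ^ 4 * (1 - (m / (m + c)) ^ s) := ⟨_, rfl⟩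
  have hr01 : r0 < 1 := by rw [hr0]; linarith
  obtain ⟨r1, hr1⟩ : ∃ r1, r1 = max r0 (1 / 2) := ⟨_, rfl⟩
  have hr1a : r0 ≤ r1 := by rw [hr1]; exact le_max_left _ _
  have hr1b : 1 / 2 ≤ r1 := by rw [hr1]; exact le_max_right _ _
  have hr1c : r1 < 1 := by rw [hr1]; exact max_lt hr01 (by norm_num)
  have hr1d : 0 < r1 := by linarith
  obtain ⟨γ, hγ⟩ : ∃ γ, γ = -Real.log r1 / 10 := ⟨_, rfl⟩
  have hlog : Real.log r1 < 0 := Real.log_neg hr1d hr1c
  have hγ0 : 0 < γ := by rw [hγ]; linarith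
  have hexp : Real.exp (5 * γ) * r1 < 1 := by
    have e1 : Real.exp (5 * γ) * r1 = Real.exp (Real.log r1 / 2) := by
      conv_lhs => rw [← Real.exp_log hr1d]
      rw [← Real.exp_add]
      congr 1
      rw [hγ]
      ring
    rw [e1]
    calc Real.exp (Real.log r1 / 2) < Real.exp 0 := Real.exp_lt_exp.2 (by linarith)
      _ = 1 := Real.exp_zero
  refine ⟨s, δ, γ, hs, hs1, hδ, hδ2, hγ0, ?_⟩
  intro ι hcount t ht hts sh hsh1 hsh r hr μ hμP hμ hμD b hμb y
  have hme : M + lam * b - δ = m + lam * b := by rw [hm]; ring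
  rw [hme]
  have hapr : Apr μ lam s C' := by
    rw [hC']
    exact hCs s hs2 hs1 μ hμ hμD
  have hts' : ∀ x, (Summable fun y => |t x y| ^ s) ∧ ∑' y, |t x y| ^ s ≤ S := fun x => by
    rw [hS]
    exact hts s hs2 hs1 x
  obtain ⟨ρ, hρ⟩ : ∃ ρ : ι → ℝ≥0∞, ρ = fun x => ENNReal.ofReal (Real.exp (γ * r x)) := ⟨_, rfl⟩
  have hρ5 : ∀ x v, r v ≤ r x + 5 → ρ v ≤ ENNReal.ofReal (Real.exp (5 * γ)) * ρ x := by
    intro x v hv
    rw [hρ]
    simp only
    rw [← ENNReal.ofReal_mul (Real.exp_nonneg _), ← Real.exp_add]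
    apply ENNReal.ofReal_le_ofReal
    apply Real.exp_le_exp.2
    have h1 : (r v : ℝ) ≤ r x + 5 := by exact_mod_cast hv
    nlinarith
  have hWr := Wt_row hR t s sh hsh1 m c C' p S η hs hm0 hc hC'0 hp0 hS0 hη hη1 hsh hts' hp1
  rw [← hr0] at hWr
  have hSr := St_row t s sh m C' S η hm0 hη hη1 hsh hts' hp1
  have key := hI ι (FF t lam s μ (Set.Ioi (m + lam * b))) (St t s sh m C') (Wt t s sh m c C' p) ρ
    (ENNReal.ofReal C') ((5 * (16 * ENNReal.ofReal (m ^ (-s))) + ENNReal.ofReal C' * 5) *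
      ENNReal.ofReal (Real.exp (5 * γ))) (ENNReal.ofReal (Real.exp (5 * γ) * r1))
    ENNReal.ofReal_ne_top
    (ENNReal.mul_ne_top (ENNReal.add_ne_top.2 ⟨ENNReal.mul_ne_top (by norm_num)
      (ENNReal.mul_ne_top (by norm_num) ENNReal.ofReal_ne_top),
      ENNReal.mul_ne_top ENNReal.ofReal_ne_top (by norm_num)⟩) ENNReal.ofReal_ne_top)
    (by
      rw [← ENNReal.ofReal_one]
      exact (ENNReal.ofReal_lt_ofReal_iff (by norm_num)).2 hexp)
    (fun x => by
      rw [hρ]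
      simp only
      rw [← ENNReal.ofReal_one]
      apply ENNReal.ofReal_le_ofReal
      exact Real.one_le_exp (by positivity))
    (fun x => by rw [hρ]; exact ENNReal.ofReal_ne_top)
    (fun x y => by
      unfold FF
      exact iSup₂_le fun q _ => fO_le t lam s μ hA ht C' hapr q.1 _
        (by rw [zk_im]; exact ep_pos _) x y)
    (fun x => by
      calc ∑' y, St t s sh m C' x y * ρ y ≤
            ∑' y, St t s sh m C' x y * (ENNReal.ofReal (Real.exp (5 * γ)) * ρ x) := by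
            refine ENNReal.tsum_le_tsum fun y => ?_
            by_cases h : St t s sh m C' x y = 0
            · rw [h, zero_mul, zero_mul]
            · gcongr
              exact hρ5 x y (St_far t s sh hsh1 r hr m C' x y h)
        _ = (∑' y, St t s sh m C' x y) * (ENNReal.ofReal (Real.exp (5 * γ)) * ρ x) :=
            ENNReal.tsum_mul_right
        _ ≤ _ := by
            rw [← mul_assoc]
            gcongr
            exact hSr x)
    (fun x => by
      calc ∑' v, Wt t s sh m c C' p x v * ρ v ≤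
            ∑' v, Wt t s sh m c C' p x v * (ENNReal.ofReal (Real.exp (5 * γ)) * ρ x) := by
            refine ENNReal.tsum_le_tsum fun v => ?_
            by_cases h : Wt t s sh m c C' p x v = 0
            · rw [h, zero_mul, zero_mul]
            · gcongr
              exact hρ5 x v (Wt_far t s hs sh hsh1 r hr m c C' p x v h)
        _ = (∑' v, Wt t s sh m c C' p x v) * (ENNReal.ofReal (Real.exp (5 * γ)) * ρ x) :=
            ENNReal.tsum_mul_right
        _ ≤ ENNReal.ofReal r0 * (ENNReal.ofReal (Real.exp (5 * γ)) * ρ x) := by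
            gcongr
            exact hWr x
        _ ≤ ENNReal.ofReal r1 * (ENNReal.ofReal (Real.exp (5 * γ)) * ρ x) := by
            gcongr
        _ = _ := by
            rw [ENNReal.ofReal_mul (Real.exp_nonneg _)]
            ring)
    (fun x y => FF_ineq t lam s μ hA hB hE hch ht hs hs1.le C' hapr b hlam hμ hμb m c p hm0 hc
      (by rw [hp]; exact muAb μ D lam b c hD hlam hμD hμb) (m + lam * b) le_rfl sh hsh x y)
    y
  refine ne_top_of_le_ne_top ?_ (le_trans (ENNReal.tsum_le_tsum fun x => ?_) key)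
  · refine ENNReal.mul_ne_top (ENNReal.mul_ne_top (ENNReal.mul_ne_top (ENNReal.add_ne_top.2
      ⟨ENNReal.mul_ne_top (by norm_num)
      (ENNReal.mul_ne_top (by norm_num) ENNReal.ofReal_ne_top),
      ENNReal.mul_ne_top ENNReal.ofReal_ne_top (by norm_num)⟩) ENNReal.ofReal_ne_top) ?_) ?_
    · rw [Ne, ENNReal.inv_eq_top, tsub_eq_zero_iff_le, not_le, ← ENNReal.ofReal_one]
      exact (ENNReal.ofReal_lt_ofReal_iff (by norm_num)).2 hexp
    · rw [hρ]
      exact ENNReal.ofReal_ne_top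
  · rw [mul_comm, hρ]
    simp only
    gcongr
    rw [FF_symm t lam s μ hA ht]
    exact fs_le_FF t lam s μ _ x y

end Pool.Agent.H121.UE
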