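import Pool.Agent.H121.UE.EdgeY
import Pool.Agent.H121.EU.Main

/-! Project UE: assembly for the lattice. -/

set_option autoImplicit false
set_option linter.unusedSectionVars false

open scoped BigOperators InnerProductSpace Topology ENNReal
open Filter MeasureTheory

namespace Pool.Agent.H121.UE

open Pool.Agent.Y662.TR (LL Cf Mw dv hu lmk ll_ext ll_summable clp_eq Mw_apply dv_apply)
open Pool.Agent.TH369.MU (SpM spm_exists)
open Pool.Agent.H987.Z (Rs SqS IsSp sp_of of_sp)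
open Pool.Agent.H987.Y
open Pool.Agent.H121.Z987 (wt HH HH_apply HH_rs)
open Pool.Agent.H121.MY
open Pool.Agent.H121.EU (S_odoB odo_env cls_env weakE odo)

/-- the lower end of the support of a law -/
noncomputable def low (μ : Measure ℝ) : ℝ := sSup {t : ℝ | μ (Set.Iio t) = 0}

theorem low_spec (μ : Measure ℝ) [IsProbabilityMeasure μ] (hμ : ∀ᵐ v ∂μ, |v| ≤ 1) :
    μ (Set.Iio (low μ)) = 0 ∧ ∀ δ : ℝ, 0 < δ → 0 < μ (Set.Iio (low μ + δ)) := by
  obtain ⟨S, hS⟩ : ∃ S : Set ℝ, S = {t : ℝ | μ (Set.Iio t) = 0} := ⟨_, rfl⟩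
  have hlow : low μ = sSup S := by rw [hS]; rfl
  have hne : (-1 : ℝ) ∈ S := by
    rw [hS]
    show μ (Set.Iio (-1 : ℝ)) = 0
    rw [ae_iff] at hμ
    refine measure_mono_null (fun v hv => ?_) hμ
    have hv' : v < -1 := hv
    show ¬ |v| ≤ 1
    intro h
    have := (abs_le.1 h).1
    linarith
  have hbd : BddAbove S := by
    refine ⟨1, fun t ht => ?_⟩
    by_contra hcon
    rw [not_le] at hcon
    rw [hS] at ht
    have ht' : μ (Set.Iio t) = 0 := ht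
    rw [ae_iff] at hμ
    have h1 : μ Set.univ = 0 := by
      rw [← Set.union_compl_self (Set.Iio t)]
      refine measure_union_null ht' (measure_mono_null (fun v hv => ?_) hμ)
      have hv' : t ≤ v := not_lt.1 hv
      show ¬ |v| ≤ 1
      intro h
      have := (abs_le.1 h).2
      linarith
    rw [measure_univ] at h1
    exact one_ne_zero h1
  rw [hlow]
  constructor
  · have h1 : Set.Iio (sSup S) ⊆ ⋃ n : ℕ, Set.Iio (sSup S - 1 / ((n : ℝ) + 1)) := by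
      intro v hv
      have hv' : v < sSup S := hv
      obtain ⟨n, hn⟩ := exists_nat_one_div_lt (ε := sSup S - v) (by linarith)
      rw [Set.mem_iUnion]
      exact ⟨n, by show v < _; linarith⟩
    refine measure_mono_null h1 ((measure_iUnion_null_iff).2 fun n => ?_)
    have h2 : (0 : ℝ) < 1 / ((n : ℝ) + 1) := by positivity
    obtain ⟨t, ht, ht2⟩ := exists_lt_of_lt_csSup ⟨_, hne⟩ (sub_lt_self (sSup S) h2)
    rw [hS] at ht
    exact measure_mono_null (Set.Iio_subset_Iio ht2.le) ht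
  · intro δ hδ
    rw [pos_iff_ne_zero]
    intro h
    have h1 : sSup S + δ ∈ S := by
      have h3 : ∀ t, μ (Set.Iio t) = 0 → t ∈ S := fun t ht => by rw [hS]; exact ht
      exact h3 _ h
    have h2 := le_csSup hbd h1
    linarith

/-- **localization near the bottom of the spectrum**, for all conductances in the class and all laws of
bounded density -/
theorem locEU (d : ℕ) (hd : 1 ≤ d) (a m : ℕ → ℝ)
    (ha : ∀ k, 0 ≤ a k) (hm : ∀ k, 0 ≤ m k)
    (hp : ∀ p : ℝ, 0 < p → Summable fun k => a k ^ p * m k) (D : ℝ) (hD : 0 < D) (lam : ℝ)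
    (hlam : 0 < lam) :
    ∃ η : ℝ, 0 < η ∧ ∀ (μ : Measure ℝ) [IsProbabilityMeasure μ], (∀ᵐ v ∂μ, |v| ≤ 1) →
      (∀ E : Set ℝ, MeasurableSet E → μ E ≤ ENNReal.ofReal D * volume E) →
      ∀ A : Lt d → Lt d → ℝ, Cls d a m A →
        ∀ᵐ ω ∂(Measure.infinitePi fun _ : Lt d => μ),
          (∀ f : Lt d → ℂ, SqS f → ∃ m : Measure ℝ, IsSp (HamC A lam ω) f m) ∧
          PPi (HamC A lam ω) (Set.Iio (lam * low μ + η)) ∧
          ∀ E : ℝ, lam * low μ < E → ∃ (t : ℝ) (u : Lt d → ℂ), t < E ∧ SqS u ∧ (∃ p, u p ≠ 0) ∧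
            ∀ p, HamC A lam ω u p = (t : ℂ) * u p := by
  obtain ⟨δ, hδ, -, he⟩ := edgeU d hd a m ha hm hp D hD lam hlam
  refine ⟨δ, hδ, fun μ _ hμ hμD A hA => ?_⟩
  obtain ⟨r1, r2, r3, r4⟩ := refl_law μ D
  obtain ⟨l1, l2⟩ := low_spec μ hμ
  have h5 := he A hA (μ.map fun v => -v) (r2 hμ) (r3 hμD) (-low μ) (by rw [r4, neg_neg]; exact l1)
    (fun δ hδ => by
      rw [r4]
      have h7 : -(-low μ - δ) = low μ + δ := by ring
      rw [h7]
      exact l2 δ hδ)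
  obtain ⟨b, hb⟩ : ∃ b : ℝ, b = 2 * (d : ℝ) + ∑' k, a k * m k := ⟨_, rfl⟩
  rw [← hb] at h5
  filter_upwards [refl_prod μ _ h5, bdd_ae' μ hμ] with ω hω hω3
  obtain ⟨hω1, hω2⟩ := hω
  refine ⟨fun f hf => has_c hA lam ω hω3 f hf, ?_, fun E hE => ?_⟩
  · have h10 := ppi_c hA lam ω (Set.Ioi (b + lam * -low μ - δ)) hω1
    rw [← hb] at h10
    have h11 : (fun E => -1 * E + b) ⁻¹' Set.Ioi (b + lam * -low μ - δ) =
        Set.Iio (lam * low μ + δ) := by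
      ext E
      simp only [Set.mem_preimage, Set.mem_Ioi, Set.mem_Iio]
      constructor <;> intro h <;> nlinarith
    rw [h11] at h10
    exact h10
  · obtain ⟨t, u, g1, g2, g3, g4⟩ := hω2 (b - E) (by linarith)
    refine ⟨b - t, u, by linarith, g2, g3, fun p => ?_⟩
    rw [hamc_t hA lam ω u g2 p, g4, ← hb]
    push_cast
    ring

set_option maxHeartbeats 1000000 in
/-- **bounded laws** -/
theorem mainU (hoB : S_odoB) (d : ℕ) (hd : 1 ≤ d) (α β : ℝ) (hα : 0 < α) (hαβ : α ≤ β)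
    (hβ : β < 4 * d) (h2 : d = 2 → β < 4 ∨ 4 < α) (ε : ℝ) (hε : 0 < ε) :
    ∃ (κ lam0 : ℝ) (K : Type) (_ : MeasurableSpace K) (P : Measure K)
      (τ : (Fin d → ℤ) → K → K) (A : K → (Fin d → ℤ) → (Fin d → ℤ) → ℝ), 0 < κ ∧ κ ≤ ε ∧ 0 < lam0 ∧
      (IsProbabilityMeasure P ∧ (∀ u, τ 0 u = u) ∧ (∀ v w u, τ (v + w) u = τ v (τ w u)) ∧
        (∀ v, MeasurePreserving (τ v) P P) ∧
        (∀ T : Set K, MeasurableSet T → (∀ v, τ v ⁻¹' T = T) → P T = 0 ∨ P T = 1) ∧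
        (∀ x y, Measurable fun u => A u x y) ∧
        (∀ v u x y, A (τ v u) x y = A u (x + v) (y + v))) ∧
      (∀ u, (∀ x y, 0 ≤ A u x y) ∧ (∀ x y, A u x y = A u y x) ∧
        (∀ x, HasSum (fun y => A u x y) κ) ∧
        (∀ p : ℝ, 0 < p → ∃ S : ℝ, ∀ x, (Summable fun y => A u x y ^ p) ∧ ∑' y, A u x y ^ p ≤ S) ∧
        (∀ δ : ℝ, 0 < δ → ∃ (N R : ℕ) (B : (Fin d → ℤ) → (Fin d → ℤ) → ℝ), 0 < N ∧
          (∀ x y v, B (x + (N : ℤ) • v) (y + (N : ℤ) • v) = B x y) ∧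
          (∀ x y, B x y ≠ 0 → ∀ i, |x i - y i| ≤ R) ∧
          ∀ x, (Summable fun y => |A u x y - B x y|) ∧ ∑' y, |A u x y - B x y| ≤ δ)) ∧
      (∀ (μ : Measure ℝ) [IsProbabilityMeasure μ], (∀ᵐ v ∂μ, |v| ≤ 1) →
        ∀ lam : ℝ, 0 < lam → lam ≤ lam0 →
        ∀ᵐ u ∂P, ∀ᵐ ω ∂(Measure.infinitePi fun _ : Fin d → ℤ => μ),
          ACo (HamC (A u) lam ω) α β fun x y => dv x y) ∧
      ∀ D : ℝ, 0 < D →
        (∀ lam : ℝ, 0 < lam → ∃ η : ℝ, 0 < η ∧ ∀ (μ : Measure ℝ) [IsProbabilityMeasure μ],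
          (∀ᵐ v ∂μ, |v| ≤ 1) →
          (∀ E : Set ℝ, MeasurableSet E → μ E ≤ ENNReal.ofReal D * volume E) → ∀ u,
            ∀ᵐ ω ∂(Measure.infinitePi fun _ : Fin d → ℤ => μ),
              (∀ f : (Fin d → ℤ) → ℂ, SqS f → ∃ m : Measure ℝ, IsSp (HamC (A u) lam ω) f m) ∧
              PPi (HamC (A u) lam ω) (Set.Iio (lam * low μ + η)) ∧
              ∀ E : ℝ, lam * low μ < E →
                ∃ (t : ℝ) (w : (Fin d → ℤ) → ℂ), t < E ∧ SqS w ∧ (∃ p, w p ≠ 0) ∧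
                  ∀ p, HamC (A u) lam ω w p = (t : ℂ) * w p) ∧
        (∃ lam1 : ℝ, 0 < lam1 ∧ ∀ (μ : Measure ℝ) [IsProbabilityMeasure μ],
          (∀ᵐ v ∂μ, |v| ≤ 1) →
          (∀ E : Set ℝ, MeasurableSet E → μ E ≤ ENNReal.ofReal D * volume E) →
          ∀ lam : ℝ, lam1 ≤ lam → ∀ u, ∀ᵐ ω ∂(Measure.infinitePi fun _ : Fin d → ℤ => μ),
            (∀ f : (Fin d → ℤ) → ℂ, SqS f → ∃ m : Measure ℝ, IsSp (HamC (A u) lam ω) f m) ∧
            PPi (HamC (A u) lam ω) Set.univ) := by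
  have hc := Pool.Agent.H194.Z987.conv
  have hg := Pool.Agent.H304.Z987.green
  have h1 := Pool.Agent.H284.Z987.hutri
  have hop := Pool.Agent.H168.Y987.op
  have heqv := Pool.Agent.H215.Y987.eqv hop
  have hmeas := Pool.Agent.H800.Y987.meas hop
  have htr := Pool.Agent.H410.Y987.troot hop
  have hfree := Pool.Agent.H788.Y987.free hop
  have hA := Pool.Agent.H332.Y987.hullA hfree
  have hsep := Pool.Agent.H796.Y987.sep
  have hdig := Pool.Agent.H588.Y987.dig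
  obtain ⟨lam0, a, m, Q, A, hl0, ha, hm, hp, hs, hε', hQ, hcls, hAm, hcov, hac⟩ :=
    weakE Pool.Agent.H307.EU.odoA Pool.Agent.H199.MY.gauge hop hmeas Pool.Agent.H295.Y987.ac2 hg
    (Pool.Agent.H795.Y987.bootk h1 Pool.Agent.H271.Z987.lln Pool.Agent.H628.Z987.star hg hop hmeas
      htr Pool.Agent.H588.Y987.tsplit)
    (Pool.Agent.H909.Y987.closek hop htr)
    (Pool.Agent.H297.Y987.net hop heqv hmeas htr hsep (Pool.Agent.H757.Y987.cov hop htr)
      (Pool.Agent.H323.Y987.fold Pool.Agent.H578.Y987.tile Pool.Agent.H383.Z987.word) hg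
      Pool.Agent.H784.Z987.mom h1)
    hfree hsep hdig hA
    (Pool.Agent.H825.Y987.hullB hA hdig heqv hmeas hop hg hsep)
    Pool.Agent.H168.Y987.kact (Pool.Agent.H734.Z987.free1 hc hg)
    (Pool.Agent.H548.Z987.free2 hc hg) (Pool.Agent.H383.Z987.free3 hc hg)
    d hd α β hα hαβ hβ h2 ε hε
  have hκ : 0 < ∑' k, a k * m k := by
    refine lt_of_lt_of_le (mul_pos (ha 0) (lt_of_lt_of_le one_pos (hm 0))) ?_
    exact hs.le_tsum 0 fun k _ => mul_nonneg (ha k).le (zero_le_one.trans (hm k))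
  obtain ⟨o1, o2, o3, o4, o5⟩ := odo_env hoB (d := d) hQ
  have hm0 : ∀ k, 0 ≤ m k := fun k => zero_le_one.trans (hm k)
  refine ⟨∑' k, a k * m k, lam0, Hu d Q, inferInstance, PH d Q, odo, A, hκ, hε', hl0,
    ⟨o1, o2, o3, o4, o5, hAm, hcov⟩, fun u => cls_env (hcls u) hp, hac, fun D hD => ⟨?_, ?_⟩⟩
  · intro lam hlam
    obtain ⟨η, hη, h⟩ := locEU d hd a m (fun k => (ha k).le) hm0 hp D hD lam hlam
    exact ⟨η, hη, fun μ _ hμ hμD u => h μ hμ hμD (A u) (hcls u)⟩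
  · obtain ⟨lam1, hl1, hst⟩ := strongY d a m (fun k => (ha k).le) hm0 D hD
    refine ⟨lam1, hl1, fun μ _ hμ hμD lam hlam u => ?_⟩
    obtain ⟨r1, r2, r3, r4⟩ := refl_law μ D
    have h5 := hst (A u) (hcls u) (μ.map fun v => -v) (r2 hμ) (r3 hμD) lam hlam
    filter_upwards [refl_prod μ _ h5, bdd_ae' μ hμ] with ω hω1 hω3
    refine ⟨fun f hf => has_c (hcls u) lam ω hω3 f hf, ?_⟩
    have h10 := ppi_c (hcls u) lam ω Set.univ (fun f m' hf hm' => by
      obtain ⟨N, hN, hmN⟩ := hω1 f m' hf hm'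
      exact ⟨N, hN, by rwa [← Set.compl_eq_univ_sdiff]⟩)
    rwa [Set.preimage_univ] at h10

end Pool.Agent.H121.UE
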