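import Pool.Agent.H121.UE.Iface
import Pool.Agent.H168.Y987.Op

/-! Project UE: the equation at one site, the inequality along a chain. -/

set_option autoImplicit false
set_option linter.unusedSectionVars false

open scoped BigOperators InnerProductSpace Topology ENNReal
open Filter MeasureTheory

namespace Pool.Agent.H121.UE

open Pool.Agent.Y662.TR hiding wt
open Pool.Agent.H987.Z (Rs Gr)
open Pool.Agent.H987.Y (Ker Op Lt S_op)
open Pool.Agent.TH369.MU (SpM ep zk)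
open Pool.Agent.TH369.MU.PO2 (ep_pos ep_tendsto)
open Pool.Agent.H121.Z987
open Pool.Agent.H121.ME (fs)

variable {ι : Type}

theorem op_dv {h : ℝ} {k : ι → ι → ℝ} (hk : Ker h k) (x y : ι) :
    Op k (dv y) x = ((k x y : ℝ) : ℂ) := by
  rw [((Pool.Agent.H168.Y987.op _ _ _ hk).1 (dv y) x).2, tsum_eq_single y]
  · rw [dv_apply, if_pos rfl, mul_one]
  · intro w hw
    rw [dv_apply, if_neg hw, mul_zero]

theorem rk_le (Ω : Set ι) (t : ι → ι → ℝ) (x y : ι) : |rk Ω t x y| ≤ |t x y| := by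
  unfold rk
  split_ifs
  · exact le_rfl
  · rw [abs_zero]; exact abs_nonneg _

open Classical in
/-- the equation at one site -/
theorem one_site (hA : S_resA) {M : ℝ} {t : ι → ι → ℝ} (ht : Ker M t) (lam : ℝ) (Ω : Set ι)
    (ω : ι → ℝ) (z : ℂ) (hz : z.im ≠ 0) (s : ℝ) (hs : 0 < s) (hs1 : s ≤ 1) (x y : ι)
    (hx : |ω x| ≤ 1) (c : ℝ) (hc : 0 ≤ c) (hcz : c ≤ z.re - lam * ω x) :
    ENNReal.ofReal (c ^ s) * ‖GO t lam Ω ω z x y‖ₑ ^ s ≤
      (if x = y then 1 else 0) + ∑' u, ENNReal.ofReal (|t x u| ^ s) * ‖GO t lam Ω ω z u y‖ₑ ^ s := by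
  obtain ⟨hK, -, -⟩ := hA ι M t ht Ω
  have hRs := (Pool.Agent.H168.Y987.op _ _ _ hK).2.2.1
  have h1 := eqn (Op (rk Ω t)) hRs lam ω z hz s hs hs1 x y hx
  have h2 : ENNReal.ofReal (c ^ s) ≤ ‖((lam * ω x : ℝ) : ℂ) - z‖ₑ ^ s := by
    rw [enorm_rpow _ s hs.le]
    apply ENNReal.ofReal_le_ofReal
    refine Real.rpow_le_rpow hc ?_ hs.le
    have h3 := Complex.abs_re_le_norm (((lam * ω x : ℝ) : ℂ) - z)
    have h4 : (((lam * ω x : ℝ) : ℂ) - z).re = lam * ω x - z.re := by simp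
    rw [h4, abs_sub_comm] at h3
    exact (hcz.trans (le_abs_self _)).trans h3
  calc ENNReal.ofReal (c ^ s) * ‖GO t lam Ω ω z x y‖ₑ ^ s ≤
        ‖((lam * ω x : ℝ) : ℂ) - z‖ₑ ^ s * ‖Gr (HH (Op (rk Ω t)) lam ω) z x y‖ₑ ^ s := by
        unfold GO
        gcongr
    _ ≤ _ := h1
    _ ≤ _ := by
        refine add_le_add ?_ (ENNReal.tsum_le_tsum fun u => ?_)
        · by_cases h : x = y
          · subst h
            rw [dv_self, if_pos rfl]
            simp
          · rw [dv_ne h, if_neg h]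
            simp [hs]
        · unfold GO
          gcongr
          rw [op_dv hK, enorm_rpow _ s hs.le, Complex.norm_real, Real.norm_eq_abs]
          apply ENNReal.ofReal_le_ofReal
          have h5 : |rk Ω t u x| ≤ |t x u| := by
            rw [← ht.sy u x]
            exact rk_le Ω t u x
          exact Real.rpow_le_rpow (abs_nonneg _) h5 hs.le

theorem inv_mul_le' {a g R : ℝ≥0∞} (ha : a ≠ 0) (ha' : a ≠ ∞) (h : a * g ≤ R) : g ≤ a⁻¹ * R := by
  calc g = a⁻¹ * (a * g) := by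
        rw [← mul_assoc, ENNReal.inv_mul_cancel ha ha', one_mul]
    _ ≤ a⁻¹ * R := by gcongr

open Classical in
/-- a good site -/
theorem one_good (hA : S_resA) {M : ℝ} {t : ι → ι → ℝ} (ht : Ker M t) (lam : ℝ) (Ω : Set ι)
    (ω : ι → ℝ) (z : ℂ) (hz : z.im ≠ 0) (s : ℝ) (hs : 0 < s) (hs1 : s ≤ 1) (x y : ι)
    (hx : |ω x| ≤ 1) (m c : ℝ) (hm : 0 < m) (hc : 0 ≤ c) (hcz : m + c ≤ z.re - lam * ω x) :
    ‖GO t lam Ω ω z x y‖ₑ ^ s ≤ ENNReal.ofReal ((m / (m + c)) ^ s) *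
      (ENNReal.ofReal (m ^ (-s)) * (if x = y then 1 else 0) +
        ∑' u, ENNReal.ofReal (|t x u| ^ s) * ENNReal.ofReal (m ^ (-s)) *
          ‖GO t lam Ω ω z u y‖ₑ ^ s) := by
  have hmc : 0 < m + c := by linarith
  have h1 := one_site hA ht lam Ω ω z hz s hs hs1 x y hx (m + c) hmc.le hcz
  have h0 : 0 < (m + c) ^ s := by positivity
  have h2 := inv_mul_le' (ENNReal.ofReal_pos.2 h0).ne' ENNReal.ofReal_ne_top h1
  refine h2.trans (le_of_eq ?_)
  have e1 : (ENNReal.ofReal ((m + c) ^ s))⁻¹ =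
      ENNReal.ofReal ((m / (m + c)) ^ s) * ENNReal.ofReal (m ^ (-s)) := by
    rw [← ENNReal.ofReal_inv_of_pos h0, ← ENNReal.ofReal_mul (by positivity)]
    congr 1
    rw [Real.div_rpow hm.le hmc.le, Real.rpow_neg hm.le]
    have : 0 < m ^ s := by positivity
    field_simp
  rw [e1, mul_assoc]
  congr 1
  rw [mul_add]
  congr 1
  rw [← ENNReal.tsum_mul_left]
  exact tsum_congr fun u => by ring

end Pool.Agent.H121.UE
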