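import Pool.Agent.H121.UE.One

/-! Project UE: the pointwise inequality along a chain. -/

set_option autoImplicit false
set_option linter.unusedSectionVars false

open scoped BigOperators InnerProductSpace Topology ENNReal
open Filter MeasureTheory

namespace Pool.Agent.H121.UE

open Pool.Agent.Y662.TR hiding wt
open Pool.Agent.H987.Z (Rs Gr)
open Pool.Agent.H987.Y (Ker Op Lt S_op)
open Pool.Agent.TH369.MU (SpM ep zk)
open Pool.Agent.TH369.MU.PO2 (ep_pos ep_tendsto)
open Pool.Agent.H121.Z987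
open Pool.Agent.H121.ME (fs)

variable {ι : Type}

/-- the chain of a site -/
def ch (sh : ι → ι) (x : ι) (i : ℕ) : ι := sh^[i] x

open Classical in
/-- the sites of a chain -/
noncomputable def Bx (sh : ι → ι) (x : ι) : Finset ι := (Finset.range 5).image (ch sh x)

theorem mem_Bx (sh : ι → ι) (x w : ι) : w ∈ Bx sh x ↔ ∃ i ≤ 4, ch sh x i = w := by
  classical
  unfold Bx
  rw [Finset.mem_image]
  constructor
  · rintro ⟨i, hi, h⟩
    exact ⟨i, by rw [Finset.mem_range] at hi; omega, h⟩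
  · rintro ⟨i, hi, h⟩
    exact ⟨i, by rw [Finset.mem_range]; omega, h⟩

theorem card_Bx (sh : ι → ι) (hsh : ∀ x (i j : ℕ), i < j → j ≤ 4 → sh^[i] x ≠ sh^[j] x) (x : ι) :
    (Bx sh x).card = 5 := by
  classical
  unfold Bx
  rw [Finset.card_image_of_injOn, Finset.card_range]
  intro i hi j hj hij
  rw [Finset.mem_coe, Finset.mem_range] at hi hj
  by_contra hne
  rcases Nat.lt_or_gt_of_ne hne with h | h
  · exact hsh x i j h (by omega) hij
  · exact hsh x j i h (by omega) hij.symm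

theorem self_mem_Bx (sh : ι → ι) (x : ι) : x ∈ Bx sh x := by
  rw [mem_Bx]
  exact ⟨0, by omega, rfl⟩

/-- the weights -/
noncomputable def Pm (t : ι → ι → ℝ) (s m : ℝ) (x u : ι) : ℝ≥0∞ :=
  ENNReal.ofReal (|t x u| ^ s) * ENNReal.ofReal (m ^ (-s))

open Classical in
/-- the source -/
noncomputable def cs (s m : ℝ) (y x : ι) : ℝ≥0∞ :=
  ENNReal.ofReal (m ^ (-s)) * (if x = y then 1 else 0)

/-- the bad values of the potential -/
def Ab (lam b c : ℝ) : Set ℝ := {v | lam * (b - v) < c}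

theorem Ab_meas (lam b c : ℝ) : MeasurableSet (Ab lam b c) :=
  measurableSet_lt (by fun_prop) measurable_const

open Classical in
/-- **the pointwise inequality** -/
theorem pw (hA : S_resA) (hch : S_chain) {M : ℝ} {t : ι → ι → ℝ} (ht : Ker M t) (lam b : ℝ)
    (hlam : 0 < lam) (Ω : Set ι) (ω : ι → ℝ) (hω : ∀ x, |ω x| ≤ 1) (hωb : ∀ x, ω x ≤ b) (z : ℂ)
    (hz : z.im ≠ 0) (s : ℝ) (hs : 0 < s) (hs1 : s ≤ 1) (m c : ℝ) (hm : 0 < m) (hc : 0 < c)
    (hzm : m + lam * b ≤ z.re) (sh : ι → ι) (x y : ι) (hy : y ∈ Ω) :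
    ‖GO t lam Ω ω z x y‖ₑ ^ s ≤
      (∑ i ∈ Finset.range 5, pk (Pm t s m) (ch sh x) i * cs s m y (ch sh x i) +
        ∑' v, Wb (Pm t s m) (ENNReal.ofReal ((m / (m + c)) ^ s)) (ch sh x) 4 v *
          ‖GO t lam Ω ω z v y‖ₑ ^ s) +
      (if ((Bx sh x : Finset ι) : Set ι) ⊆ Ω then
        (∏ w ∈ Bx sh x, (Ab lam b c).indicator (fun _ => (1 : ℝ≥0∞)) (ω w)) *
          ‖GO t lam Ω ω z x y‖ₑ ^ s else 0) := by
  obtain ⟨g, hg⟩ : ∃ g : ι → ℝ≥0∞, g = fun x => ‖GO t lam Ω ω z x y‖ₑ ^ s := ⟨_, rfl⟩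
  have hgx : ∀ x, ‖GO t lam Ω ω z x y‖ₑ ^ s = g x := fun x => by rw [hg]
  obtain ⟨κ, hκ⟩ : ∃ κ, κ = ENNReal.ofReal ((m / (m + c)) ^ s) := ⟨_, rfl⟩
  have hκ1 : κ ≤ 1 := by
    rw [hκ, ← ENNReal.ofReal_one]
    apply ENNReal.ofReal_le_ofReal
    apply Real.rpow_le_one (by positivity) _ hs.le
    rw [div_le_one (by linarith)]
    linarith
  -- the inequalities at a site
  have h1 : ∀ w, g w ≤ cs s m y w + ∑' u, Pm t s m w u * g u := by
    intro w
    have h2 := one_good hA ht lam Ω ω z hz s hs hs1 w y (hω w) m 0 hm le_rfl (by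
      have := mul_le_mul_of_nonneg_left (hωb w) hlam.le
      linarith)
    rw [add_zero, div_self hm.ne', Real.one_rpow, ENNReal.ofReal_one, one_mul] at h2
    rw [hg]
    exact h2
  have h2 : ∀ w, w ∉ Ω ∨ ω w ∉ Ab lam b c → g w ≤ κ * (cs s m y w + ∑' u, Pm t s m w u * g u) := by
    intro w hw
    rcases hw with hw | hw
    · have h3 : g w = 0 := by
        obtain ⟨-, h4, -⟩ := hA ι M t ht Ω
        rw [hg]
        simp only
        rw [h4 lam ω z w y hz hw hy]
        simp [hs]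
      rw [h3]
      exact zero_le
    · have h3 := one_good hA ht lam Ω ω z hz s hs hs1 w y (hω w) m c hm hc.le (by
        have h4 : c ≤ lam * (b - ω w) := by
          by_contra hcon
          exact hw (not_le.1 hcon)
        linarith)
      rw [hg, hκ]
      exact h3
  by_cases hbad : ∀ i ≤ 4, ch sh x i ∈ Ω ∧ ω (ch sh x i) ∈ Ab lam b c
  · have h3 : ((Bx sh x : Finset ι) : Set ι) ⊆ Ω := by
      intro w hw
      rw [Finset.mem_coe, mem_Bx] at hw
      obtain ⟨i, hi, rfl⟩ := hw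
      exact (hbad i hi).1
    have h4 : ∏ w ∈ Bx sh x, (Ab lam b c).indicator (fun _ => (1 : ℝ≥0∞)) (ω w) = 1 := by
      refine Finset.prod_eq_one fun w hw => ?_
      rw [mem_Bx] at hw
      obtain ⟨i, hi, rfl⟩ := hw
      rw [Set.indicator_of_mem (hbad i hi).2]
    rw [if_pos h3, h4, one_mul]
    exact le_add_self
  · push Not at hbad
    obtain ⟨i, hi, hbad⟩ := hbad
    have h3 := hch ι (Pm t s m) κ (ch sh x) 4 g (cs s m y) hκ1 (fun i _ => h1 _)
      ⟨i, hi, h2 _ (by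
        by_cases h : ch sh x i ∈ Ω
        · exact Or.inr (hbad h)
        · exact Or.inl h)⟩
    have h4 : ch sh x 0 = x := rfl
    rw [h4] at h3
    simp only [hgx]
    rw [← hκ]
    refine le_trans ?_ le_self_add
    exact h3

end Pool.Agent.H121.UE
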