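import Pool.Agent.H121.UE.EdgeZ

/-! Project UE: the upper end of the support. -/

set_option autoImplicit false

open scoped BigOperators Topology ENNReal
open Filter MeasureTheory

namespace Pool.Agent.H121.UE

/-- the upper end of the support of a law -/
noncomputable def upp (μ : Measure ℝ) : ℝ := sInf {t : ℝ | μ (Set.Ioi t) = 0}

theorem upp_spec (μ : Measure ℝ) [IsProbabilityMeasure μ] (hμ : ∀ᵐ v ∂μ, |v| ≤ 1) :
    μ (Set.Ioi (upp μ)) = 0 ∧ ∀ δ : ℝ, 0 < δ → 0 < μ (Set.Ioi (upp μ - δ)) := by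
  obtain ⟨S, hS⟩ : ∃ S : Set ℝ, S = {t : ℝ | μ (Set.Ioi t) = 0} := ⟨_, rfl⟩
  have hupp : upp μ = sInf S := by rw [hS]; rfl
  have hS' : ∀ t, t ∈ S ↔ μ (Set.Ioi t) = 0 := fun t => by rw [hS]; exact Iff.rfl
  have hne : (1 : ℝ) ∈ S := by
    rw [hS']
    rw [ae_iff] at hμ
    refine measure_mono_null (fun v hv => ?_) hμ
    have hv' : 1 < v := hv
    show ¬ |v| ≤ 1
    intro h
    have := (abs_le.1 h).2
    linarith
  have hbd : BddBelow S := by
    refine ⟨-1, fun t ht => ?_⟩
    by_contra hcon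
    rw [not_le] at hcon
    rw [hS'] at ht
    rw [ae_iff] at hμ
    have h1 : μ Set.univ = 0 := by
      rw [← Set.union_compl_self (Set.Ioi t)]
      refine measure_union_null ht (measure_mono_null (fun v hv => ?_) hμ)
      have hv' : v ≤ t := not_lt.1 hv
      show ¬ |v| ≤ 1
      intro h
      have := (abs_le.1 h).1
      linarith
    rw [measure_univ] at h1
    exact one_ne_zero h1
  rw [hupp]
  constructor
  · have h1 : Set.Ioi (sInf S) ⊆ ⋃ n : ℕ, Set.Ioi (sInf S + 1 / ((n : ℝ) + 1)) := by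
      intro v hv
      have hv' : sInf S < v := hv
      obtain ⟨n, hn⟩ := exists_nat_one_div_lt (ε := v - sInf S) (by linarith)
      rw [Set.mem_iUnion]
      exact ⟨n, by show _ < v; linarith⟩
    refine measure_mono_null h1 ((measure_iUnion_null_iff).2 fun n => ?_)
    have h2 : (0 : ℝ) < 1 / ((n : ℝ) + 1) := by positivity
    obtain ⟨t, ht, ht2⟩ := exists_lt_of_csInf_lt ⟨_, hne⟩ (lt_add_of_pos_right (sInf S) h2)
    rw [hS'] at ht
    exact measure_mono_null (Set.Ioi_subset_Ioi ht2.le) ht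
  · intro δ hδ
    rw [pos_iff_ne_zero]
    intro h
    have h2 := csInf_le hbd ((hS' _).2 h)
    linarith

end Pool.Agent.H121.UE
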